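import Pool.Agent.VMV.Newt

/-!
# VMV / Linn: Linnik's lemma

PROOF.  Let `S` be the set of the `x` to be counted and `f x = (ps k (x - a) j mod p ^ k)_j`, an element
of `Fin k → ZMod (p ^ k)`.
(1) The fibres of `f` on `S` have at most `k!` elements: fix `y` in the fibre; every other `x` in
the fibre satisfies `p ^ k ∣ ps (x - a) j - ps (y - a) j` for all `j`, so by `newt` (for `x - a`, `y - a`;
`Dist` is translation invariant) there is a permutation `σ` with `p ^ k ∣ x i - y (σ i)`, and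
`|x i - y (σ i)| < P ≤ p ^ k`, so `x i = y (σ i)`: `x = y ∘ σ`; there are `k!` permutations.
(2) The image of `S` is contained in the set of the `μ` with `μ j ≡ l j mod p ^ (j+1)` for all `j < k`,
which has at most `∏_j p ^ (k - 1 - j) = p ^ (k (k - 1) / 2)` elements
(`Finset.prod_range_..`, `Finset.sum_range_id_mul_two`; the number of residues modulo `p ^ k` in one
residue class modulo `p ^ (j+1)` is `p ^ (k - j - 1)`: they are the classes of
`l j + p ^ (j+1) t`, `0 ≤ t < p ^ (k - j - 1)`). Then `Finset.card_le_mul_card_image`.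
-/

set_option autoImplicit false

namespace Pool.Agent.VMV

/-- one fibre of the reduction modulo `p ^ k` -/
private theorem linn_fib {p k P : ℕ} (hp : p.Prime) (hk : k < p) (hP : P ≤ p ^ k) (a : ℤ)
    (x y : Fin k → ℤ) (hx : x ∈ dtup p k P) (hy : y ∈ dtup p k P)
    (h : ∀ j : Fin k, (p : ℤ) ^ k ∣ ps k (fun i => x i - a) j - ps k (fun i => y i - a) j) :
    ∃ σ : Equiv.Perm (Fin k), x = fun i => y (σ i) := by
  classical
  simp only [dtup, tup, Finset.mem_filter, Fintype.mem_piFinset, Finset.mem_Icc] at hx hy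
  obtain ⟨hx1, hx2⟩ := hx
  obtain ⟨hy1, hy2⟩ := hy
  obtain ⟨σ, hσ⟩ := newt hp hk (fun i => x i - a) (fun i => y i - a)
    (fun i j hij hd => hx2 i j hij (by simpa using hd))
    (fun i j hij hd => hy2 i j hij (by simpa using hd)) h
  refine ⟨σ, funext fun i => ?_⟩
  have h1 : (p : ℤ) ^ k ∣ x i - y (σ i) := by simpa using hσ i
  have hP' : (P : ℤ) ≤ (p : ℤ) ^ k := by exact_mod_cast hP
  have h2 := hx1 i
  have h3 := hy1 (σ i)
  have h4 : |x i - y (σ i)| < (p : ℤ) ^ k := by
    rw [abs_lt]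
    constructor <;> linarith [h2.1, h2.2, h3.1, h3.2]
  have h5 := Int.eq_zero_of_abs_lt_dvd h1 h4
  linarith

/-- the residues modulo `p ^ k` in one residue class modulo `p ^ (j + 1)` -/
private theorem linn_res {p k j : ℕ} (hj : j < k) (hp : 0 < p) (b c : ℤ)
    (h : (p : ℤ) ^ (j + 1) ∣ b - c) :
    ((b : ℤ) : ZMod (p ^ k)) ∈ (Finset.range (p ^ (k - 1 - j))).image
      fun t : ℕ => (((c + (p : ℤ) ^ (j + 1) * (t : ℤ) : ℤ)) : ZMod (p ^ k)) := by
  classical
  obtain ⟨d, hd⟩ := h
  rw [Finset.mem_image]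
  have hm : (0 : ℤ) < (p : ℤ) ^ (k - 1 - j) := by positivity
  have h0 := Int.emod_nonneg d hm.ne'
  have h1 := Int.emod_lt_of_pos d hm
  refine ⟨(d % (p : ℤ) ^ (k - 1 - j)).toNat, ?_, ?_⟩
  · rw [Finset.mem_range]
    zify
    rw [Int.toNat_of_nonneg h0]
    exact h1
  · rw [Int.toNat_of_nonneg h0]
    rw [ZMod.intCast_eq_intCast_iff_dvd_sub]
    have e1 : b - (c + (p : ℤ) ^ (j + 1) * (d % (p : ℤ) ^ (k - 1 - j))) =
        (p : ℤ) ^ (j + 1) * (d - d % (p : ℤ) ^ (k - 1 - j)) := by
      rw [mul_sub, ← hd]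
      ring
    rw [e1]
    have e2 : ((p ^ k : ℕ) : ℤ) = (p : ℤ) ^ (j + 1) * (p : ℤ) ^ (k - 1 - j) := by
      rw [← pow_add]
      push_cast
      congr 1
      omega
    rw [e2]
    refine mul_dvd_mul_left _ ?_
    exact Int.dvd_self_sub_emod

open Classical in
theorem linnik {p k P : ℕ} (hp : p.Prime) (hk : k < p) (hP : P ≤ p ^ k) (a : ℤ) (l : Fin k → ℤ) :
    ((dtup p k P).filter fun x =>
      ∀ j : Fin k, (p : ℤ) ^ (j.1 + 1) ∣ ps k (fun i => x i - a) j - l j).card ≤
      k.factorial * p ^ (k * (k - 1) / 2) := by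
  set S := (dtup p k P).filter fun x =>
      ∀ j : Fin k, (p : ℤ) ^ (j.1 + 1) ∣ ps k (fun i => x i - a) j - l j with hS
  set f : (Fin k → ℤ) → (Fin k → ZMod (p ^ k)) :=
    fun x j => ((ps k (fun i => x i - a) j : ℤ) : ZMod (p ^ k)) with hf
  have hfib : ∀ μ ∈ S.image f, (S.filter fun x => f x = μ).card ≤ k.factorial := by
    intro μ hμ
    obtain ⟨y, hyS, hyμ⟩ := Finset.mem_image.1 hμ
    have hsub : (S.filter fun x => f x = μ) ⊆
        (Finset.univ : Finset (Equiv.Perm (Fin k))).image fun σ => fun i => y (σ i) := by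
      intro x hx
      rw [Finset.mem_filter] at hx
      have hxS := (Finset.mem_filter.1 hx.1).1
      have hyS' := (Finset.mem_filter.1 hyS).1
      obtain ⟨σ, hσ⟩ := linn_fib hp hk hP a x y hxS hyS' (fun j => by
        have h1 : f x j = f y j := by rw [hx.2, hyμ]
        have h2 := (ZMod.intCast_eq_intCast_iff_dvd_sub _ _ _).1 h1.symm
        push_cast at h2
        exact h2)
      exact Finset.mem_image.2 ⟨σ, Finset.mem_univ _, hσ.symm⟩
    refine (Finset.card_le_card hsub).trans (Finset.card_image_le.trans ?_)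
    rw [Finset.card_univ, Fintype.card_perm, Fintype.card_fin]
  have himg : (S.image f).card ≤ p ^ (k * (k - 1) / 2) := by
    have hsub : S.image f ⊆ Fintype.piFinset fun j : Fin k =>
        (Finset.range (p ^ (k - 1 - j.1))).image
          fun t : ℕ => (((l j + (p : ℤ) ^ (j.1 + 1) * (t : ℤ) : ℤ)) : ZMod (p ^ k)) := by
      intro μ hμ
      obtain ⟨x, hxS, hxμ⟩ := Finset.mem_image.1 hμ
      rw [Fintype.mem_piFinset]
      intro j
      rw [← hxμ]
      exact linn_res j.2 hp.pos _ _ ((Finset.mem_filter.1 hxS).2 j)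
    refine (Finset.card_le_card hsub).trans ?_
    rw [Fintype.card_piFinset]
    have h1 : ∀ j : Fin k, ((Finset.range (p ^ (k - 1 - j.1))).image
          fun t : ℕ => (((l j + (p : ℤ) ^ (j.1 + 1) * (t : ℤ) : ℤ)) : ZMod (p ^ k))).card ≤
          p ^ (k - 1 - j.1) := fun j => by
      refine Finset.card_image_le.trans ?_
      rw [Finset.card_range]
    refine (Finset.prod_le_prod' fun j _ => h1 j).trans ?_
    rw [Finset.prod_pow_eq_pow_sum, Fin.sum_univ_eq_sum_range (fun j => k - 1 - j) k,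
      Finset.sum_range_reflect (fun j => j) k, Finset.sum_range_id]
  calc S.card ≤ k.factorial * (S.image f).card :=
        Finset.card_le_mul_card_image S _ hfib
    _ ≤ k.factorial * p ^ (k * (k - 1) / 2) := Nat.mul_le_mul_left _ himg

end Pool.Agent.VMV
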