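import Pool.Agent.VMV.Aff
import Pool.Agent.VMV.Linn

/-!
# VMV / Mix: the mixed system with the last variables in one residue class

PROOF.  We count the quadruples `(x, u), (y, v)` with `x, y ∈ dtup p k P`, `u, v ∈ tup s (cls p P r)`,
`ps x + ps u = ps y + ps v`.
(1) For fixed `(x, y)` the number of the `(u, v)` is at most
`Cr (tup s (cls p P r)) _ (ps k) (fun v => ps k v + (ps k y - ps k x)) ≤ J k s (cls p P r)`
(`cr_shift_le`) `≤ JP k s (P / p + 1)` (`J_cls_le`).
(2) If there is at least one `(u, v)` for `(x, y)`, then by `ps_shift2` (with `a = r`)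
`ps (x - r) - ps (y - r) = ps (v - r) - ps (u - r)`, and `p ∣ u i - r`, so `p ^ (j+1)` divides
`ps (x - r) j - ps (y - r) j`. For fixed `y` the number of such `x ∈ dtup p k P` is at most
`k! p ^ (k (k-1)/2)` by `linnik` (`l = ps k (y - r)`). The number of the `y` is at most `P ^ k`.
-/

set_option autoImplicit false

namespace Pool.Agent.VMV

private theorem mix_dvd {p k P s : ℕ} {r : ℤ} {u : Fin s → ℤ} (hu : u ∈ tup s (cls p P r))
    (j : Fin k) : (p : ℤ) ^ (j.1 + 1) ∣ ps k (fun i => u i - r) j := by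
  unfold ps
  refine Finset.dvd_sum fun i _ => pow_dvd_pow_of_dvd ?_ _
  have h1 := Fintype.mem_piFinset.1 hu i
  unfold cls at h1
  rw [Finset.mem_filter] at h1
  have h2 := Int.emod_add_mul_ediv (u i) p
  rw [h1.2] at h2
  exact ⟨u i / p, by linarith⟩

open Classical in
private noncomputable def crs {Ω Ω' V : Type*} (S : Finset Ω) (S' : Finset Ω') (Φ : Ω → V)
    (Φ' : Ω' → V) : Finset (Ω × Ω') := (S ×ˢ S').filter fun p => Φ p.1 = Φ' p.2

private theorem mem_crs {Ω Ω' V : Type*} {S : Finset Ω} {S' : Finset Ω'} {Φ : Ω → V}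
    {Φ' : Ω' → V} {a : Ω × Ω'} : a ∈ crs S S' Φ Φ' ↔ (a.1 ∈ S ∧ a.2 ∈ S') ∧ Φ a.1 = Φ' a.2 := by
  classical
  unfold crs
  rw [Finset.mem_filter, Finset.mem_product]

theorem mix {p k P : ℕ} (hp : p.Prime) (hk : k < p) (hP : P ≤ p ^ k) (s : ℕ) (r : ℤ) :
    En (dtup p k P ×ˢ tup s (cls p P r)) (fun q => ps k q.1 + ps k q.2) ≤
      k.factorial * p ^ (k * (k - 1) / 2) * P ^ k * JP k s (P / p + 1) := by
  classical
  set D := dtup p k P with hD
  set U := tup s (cls p P r) with hU
  set T : Finset ((Fin k → ℤ) × (Fin k → ℤ)) := (D ×ˢ D).filter fun q =>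
    ∀ j : Fin k, (p : ℤ) ^ (j.1 + 1) ∣ ps k (fun i => q.1 i - r) j - ps k (fun i => q.2 i - r) j
    with hT
  have hcardD : D.card ≤ P ^ k := by
    rw [hD]
    unfold dtup tup
    refine (Finset.card_filter_le _ _).trans (le_of_eq ?_)
    rw [Fintype.card_piFinset]
    simp
  have hTcard : T.card ≤ k.factorial * p ^ (k * (k - 1) / 2) * P ^ k := by
    refine (Finset.card_le_mul_card_image_of_maps_to (f := Prod.snd) (t := D) ?_
      (k.factorial * p ^ (k * (k - 1) / 2)) ?_).trans (Nat.mul_le_mul_left _ hcardD)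
    · intro q hq
      exact (Finset.mem_product.1 (Finset.mem_filter.1 hq).1).2
    · intro y hy
      refine le_trans ?_ (linnik hp hk hP r (ps k fun i => y i - r))
      refine Finset.card_le_card_of_injOn Prod.fst ?_ ?_
      · intro q hq
        have h1 := Finset.mem_filter.1 (Finset.mem_coe.1 hq)
        have h2 := Finset.mem_filter.1 h1.1
        refine Finset.mem_coe.2 (Finset.mem_filter.2 ⟨(Finset.mem_product.1 h2.1).1, ?_⟩)
        rw [← h1.2]
        exact h2.2
      · intro q hq q' hq' he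
        have h1 := (Finset.mem_filter.1 (Finset.mem_coe.1 hq)).2
        have h1' := (Finset.mem_filter.1 (Finset.mem_coe.1 hq')).2
        exact Prod.ext he (h1.trans h1'.symm)
  have key : En (D ×ˢ U) (fun q => ps k q.1 + ps k q.2) ≤ JP k s (P / p + 1) * T.card := by
    change (crs (D ×ˢ U) (D ×ˢ U) (fun q => ps k q.1 + ps k q.2)
      (fun q => ps k q.1 + ps k q.2)).card ≤ _
    refine Finset.card_le_mul_card_image_of_maps_to (f := fun a => (a.1.1, a.2.1)) (t := T) ?_ _ ?_
    · intro a ha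
      rw [mem_crs, Finset.mem_product, Finset.mem_product] at ha
      obtain ⟨h1, h2⟩ := ha
      refine Finset.mem_filter.2 ⟨Finset.mem_product.2 ⟨h1.1.1, h1.2.1⟩, fun j => ?_⟩
      have h3 := congrFun (ps_shift2 r _ _ _ _ h2) j
      simp only [Pi.add_apply] at h3
      have h4 : ps k (fun i => a.1.1 i - r) j - ps k (fun i => a.2.1 i - r) j =
          ps k (fun i => a.2.2 i - r) j - ps k (fun i => a.1.2 i - r) j := by linarith
      change (p : ℤ) ^ (j.1 + 1) ∣ ps k (fun i => a.1.1 i - r) j - ps k (fun i => a.2.1 i - r) j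
      rw [h4]
      exact dvd_sub (mix_dvd h1.2.2 j) (mix_dvd h1.1.2 j)
    · rintro ⟨x, y⟩ _
      refine le_trans ?_ ((cr_shift_le U (ps k) (ps k y - ps k x)).trans (J_cls_le hp.pos r))
      change _ ≤ (crs U U (ps k) (fun v => ps k v + (ps k y - ps k x))).card
      refine Finset.card_le_card_of_injOn (fun a => (a.1.2, a.2.2)) ?_ ?_
      · intro a ha
        rw [Finset.mem_coe, Finset.mem_filter, mem_crs, Finset.mem_product,
          Finset.mem_product] at ha
        obtain ⟨⟨h3, h4⟩, h2⟩ := ha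
        have hx : a.1.1 = x := congrArg Prod.fst h2
        have hy : a.2.1 = y := congrArg Prod.snd h2
        rw [Finset.mem_coe, mem_crs]
        refine ⟨⟨h3.1.2, h3.2.2⟩, ?_⟩
        change ps k a.1.1 + ps k a.1.2 = ps k a.2.1 + ps k a.2.2 at h4
        rw [hx, hy] at h4
        change ps k a.1.2 = ps k a.2.2 + (ps k y - ps k x)
        rw [eq_sub_of_add_eq' h4]
        abel
      · intro a ha a' ha' he
        have h2 := (Finset.mem_filter.1 (Finset.mem_coe.1 ha)).2
        have h2' := (Finset.mem_filter.1 (Finset.mem_coe.1 ha')).2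
        have he' : (a.1.2, a.2.2) = (a'.1.2, a'.2.2) := he
        have e1 : a.1.2 = a'.1.2 := (Prod.ext_iff.1 he').1
        have e2 : a.2.2 = a'.2.2 := (Prod.ext_iff.1 he').2
        have e3 : a.1.1 = a'.1.1 := (congrArg Prod.fst h2).trans (congrArg Prod.fst h2').symm
        have e4 : a.2.1 = a'.2.1 := (congrArg Prod.snd h2).trans (congrArg Prod.snd h2').symm
        exact Prod.ext (Prod.ext e3 e1) (Prod.ext e4 e2)
  calc En (D ×ˢ U) (fun q => ps k q.1 + ps k q.2) ≤ JP k s (P / p + 1) * T.card := key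
    _ ≤ JP k s (P / p + 1) * (k.factorial * p ^ (k * (k - 1) / 2) * P ^ k) :=
        Nat.mul_le_mul_left _ hTcard
    _ = _ := by ring

end Pool.Agent.VMV
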