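import Pool.Agent.VMV.Deg
import Pool.Agent.VMV.Mix

/-!
# VMV / Rec: the recursion

PROOF.  `tup t [1, P] = ndtup ∪ (tup \ ndtup)`, so by `en_union_le`
`JP k t P ≤ 2 En ndtup + 2 En (tup \ ndtup)`, `t = s + k`. The second term is `deg`. For the first:
`nondeg`, then `holder` with `R = dtup p k P`, `A = [1, P]`, `c u = u % p`, `I = {0, .., p-1}` (as integers:
`Finset.Ico 0 p`), which gives `p ^ (2 s)` and one residue class `cls p P r`; then `mix`.
-/

set_option autoImplicit false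

namespace Pool.Agent.VMV

theorem recursion {p k P : ℕ} (hk : 2 ≤ k) (hp : p.Prime) (hkp : k < p) (hP : P ≤ p ^ k) (s : ℕ) :
    JP k (s + k) P ≤
      2 * (((s + k).choose k) ^ 2 * (p ^ (2 * s) *
        (k.factorial * p ^ (k * (k - 1) / 2) * P ^ k * JP k s (P / p + 1)))) +
      2 * (p ^ (2 * (k - 1)) * k ^ (2 * (s + k)) * JP k (s + k) (P / p + 1)) := by
  classical
  have hk0 : 0 < p := hp.pos
  have hsub : ndtup p k (s + k) P ⊆ tup (s + k) (Finset.Icc 1 (P : ℤ)) := Finset.filter_subset _ _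
  have h1 : JP k (s + k) P ≤ 2 * En (ndtup p k (s + k) P) (ps k) +
      2 * En (tup (s + k) (Finset.Icc 1 (P : ℤ)) \ ndtup p k (s + k) P) (ps k) := by
    have h := en_union_le (ndtup p k (s + k) P)
      (tup (s + k) (Finset.Icc 1 (P : ℤ)) \ ndtup p k (s + k) P) (ps k)
    rw [Finset.union_sdiff_of_subset hsub] at h
    exact h
  have h2 := deg (t := s + k) (P := P) hk hkp
  have h3 := nondeg p k s P
  obtain ⟨r, _, h4⟩ := holder (dtup p k P) (ps k) (Finset.Icc 1 (P : ℤ)) (fun u => u % (p : ℤ))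
    (Finset.Ico (0 : ℤ) p)
    (fun u _ => by
      rw [Finset.mem_Ico]
      exact ⟨Int.emod_nonneg _ (by exact_mod_cast hk0.ne'), Int.emod_lt_of_pos _ (by exact_mod_cast hk0)⟩)
    ⟨0, by rw [Finset.mem_Ico]; exact ⟨le_rfl, by exact_mod_cast hk0⟩⟩ s
  have h5 := mix hp hkp hP s r
  have hcard : (Finset.Ico (0 : ℤ) p).card = p := by simp
  rw [hcard] at h4
  have h6 : En (dtup p k P ×ˢ tup s ((Finset.Icc 1 (P : ℤ)).filter fun u => u % (p : ℤ) = r))
      (fun q => ps k q.1 + ps k q.2) ≤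
      k.factorial * p ^ (k * (k - 1) / 2) * P ^ k * JP k s (P / p + 1) := h5
  have h7 : En (dtup p k P ×ˢ tup s (Finset.Icc 1 (P : ℤ))) (fun q => ps k q.1 + ps k q.2) ≤
      p ^ (2 * s) * (k.factorial * p ^ (k * (k - 1) / 2) * P ^ k * JP k s (P / p + 1)) := by
    refine h4.trans (Nat.mul_le_mul_left _ ?_)
    convert h6 using 3
  have h8 : En (ndtup p k (s + k) P) (ps k) ≤ ((s + k).choose k) ^ 2 * (p ^ (2 * s) *
        (k.factorial * p ^ (k * (k - 1) / 2) * P ^ k * JP k s (P / p + 1))) :=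
    h3.trans (Nat.mul_le_mul_left _ h7)
  refine h1.trans (add_le_add (Nat.mul_le_mul_left _ h8) (Nat.mul_le_mul_left _ ?_))
  convert h2 using 3

end Pool.Agent.VMV
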