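import Pool.Agent.VMV.Expo
import Pool.Agent.VMV.Rec

/-!
# VMV / Mvt: the mean value theorem of Vinogradov

PROOF.  `K₀ = (64 m k^4)^(m k^3)`. Induction on `τ`; `τ = 1`: `JP k k P ≤ P^(2k)` (`JP_le`), `EE_one`.
Step `τ → τ + 1` (`τ + 1 ≤ m k`), `s = k τ`, `t = s + k = k (τ + 1)`, `E = EE k (τ + 1)`; strong induction on
`P ≥ 1`: the claim is `JP k t P ≤ K₀^(τ+1) P^E`.
(a) `P < (64 k^4)^k`: `JP k t P ≤ P^(2t) = P^E P^(2t - E) ≤ P^E ((64 k^4)^k)^(k(k+1)/2)` (`EE_ge`), and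
`k^2 (k+1)/2 ≤ m k^3 (τ+1)`.
(b) `P ≥ (64 k^4)^k`. Let `Q = P^(1/k) ≥ 64 k^4` (real), `n = ⌈Q⌉`, `p` a prime with `n < p ≤ 2 n`
(`Nat.exists_prime_lt_and_le_two_mul`); `Q < p ≤ 4 Q`, `P ≤ p^k`, `k < p`. `P' = P / p + 1` satisfies
`1 ≤ P' ≤ 2 P / p < P` (real division; `P = Q^k ≥ Q^2 ≥ 4 Q ≥ p`). By `recursion`
`JP k t P ≤ M + D`.
`D = 2 p^(2(k-1)) k^(2t) JP k t P'`; by the induction hypothesis for `P'`
`D ≤ K₀^(τ+1) P^E * [2 p^(2k-2) k^(2t) 2^E p^(-E)]`, `E ≤ 2 t`, `E ≥ t + k` (`EE_lower`), `t ≥ 2 k`, so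
`2k - 2 - E ≤ -t/2`, `p^(t/2) ≥ (8 k^2)^t`, and the bracket is at most `2 k^(2t) 4^t / (8 k^2)^t = 2 / 2^t ≤ 1/2`.
`M = 2 (t choose k)^2 p^(2s) k! p^(k(k-1)/2) P^k JP k s P'`; by the hypothesis for `τ`
`JP k s P' ≤ K₀^τ (2 P / p)^(EE k τ)`. The exponent of `p` in the bound is
`2 s + k(k-1)/2 - EE k τ = k^2 - eta k τ ≥ 0`, and `p ≤ 4 Q`, `Q = P^(1/k)`, so
`p^(k^2 - eta) ≤ 4^(k^2) P^(k - eta/k)`; the exponent of `P` is
`k + EE k τ + k - eta k τ / k = E` (`EE_succ`). The constant is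
`2 (t choose k)^2 k! 2^(EE k τ) 4^(k^2) ≤ 2 (m k^2)^(2k) k^k 4^(m k^2 + k^2) ≤ K₀ / 2`
(`(t choose k) ≤ t^k`, `t ≤ m k^2`, `EE k τ ≤ 2 k τ ≤ 2 m k^2`, `k! ≤ k^k`; with `z = 64 m k^4 ≥ 1024 = 4^5`:
`4 (m k^2)^(2k) k^k 4^(m k^2 + k^2) ≤ z^1 z^(2k) z^(k/4) z^((m+1) k^2 / 5)`; it may be easier to prove
`4 (m k^2)^(2k) k^k 4^(mk^2+k^2) ≤ z^(m k^3)` in the form of logarithms, or with
`4 (mk^2)^{2k} k^k ≤ z^{3k-?}`; `k ≥ 2`, `m ≥ 1`).
So `M ≤ (1/2) K₀^(τ+1) P^E`.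
-/

set_option autoImplicit false

namespace Pool.Agent.VMV

/-- the numerical constant -/
private theorem mvt_const {k m : ℕ} (hk : 2 ≤ k) (hm : 1 ≤ m) :
    4 * (m * k ^ 2) ^ (2 * k) * k ^ k * 16 ^ (m * k ^ 2) ≤ (64 * m * k ^ 4) ^ (m * k ^ 3) := by
  set z := 64 * m * k ^ 4 with hz
  have hk1 : 1 ≤ k := by omega
  have hk4 : 16 ≤ k ^ 4 := by
    calc 16 = 2 ^ 4 := by norm_num
      _ ≤ k ^ 4 := Nat.pow_le_pow_left hk 4
  have hz1 : 16 ≤ z := by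
    calc 16 ≤ k ^ 4 := hk4
      _ ≤ 64 * m * k ^ 4 := Nat.le_mul_of_pos_left _ (by omega)
  have e1 : 4 * (m * k ^ 2) ^ (2 * k) * k ^ k ≤ z ^ (2 * k) := by
    have h1 : k ^ k ≤ (k ^ 2) ^ (2 * k) := by
      rw [← pow_mul]
      exact Nat.pow_le_pow_right hk1 (by nlinarith)
    have h2 : 4 ≤ 64 ^ (2 * k) := by
      calc 4 ≤ 64 ^ 1 := by norm_num
        _ ≤ 64 ^ (2 * k) := Nat.pow_le_pow_right (by norm_num) (by omega)
    calc 4 * (m * k ^ 2) ^ (2 * k) * k ^ k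
        ≤ 64 ^ (2 * k) * (m * k ^ 2) ^ (2 * k) * (k ^ 2) ^ (2 * k) :=
          Nat.mul_le_mul (Nat.mul_le_mul h2 le_rfl) h1
      _ = z ^ (2 * k) := by
          rw [← mul_pow, ← mul_pow, hz]
          congr 1
          ring
  have e2 : z ^ (2 * k) ≤ z ^ (m * k ^ 2) := by
    refine Nat.pow_le_pow_right (by omega) ?_
    calc 2 * k ≤ k * k := Nat.mul_le_mul_right k hk
      _ = 1 * k ^ 2 := by ring
      _ ≤ m * k ^ 2 := Nat.mul_le_mul_right _ hm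
  have e3 : 16 ^ (m * k ^ 2) ≤ z ^ (m * k ^ 2) := Nat.pow_le_pow_left hz1 _
  calc 4 * (m * k ^ 2) ^ (2 * k) * k ^ k * 16 ^ (m * k ^ 2)
      ≤ z ^ (m * k ^ 2) * z ^ (m * k ^ 2) := Nat.mul_le_mul (e1.trans e2) e3
    _ = z ^ (m * k ^ 2 * 2) := by rw [← pow_add]; congr 1; ring
    _ ≤ z ^ (m * k ^ 3) := by
        refine Nat.pow_le_pow_right (by omega) ?_
        calc m * k ^ 2 * 2 ≤ m * k ^ 2 * k := Nat.mul_le_mul_left _ hk
          _ = m * k ^ 3 := by ring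

/-- the inequality for the degenerate part -/
private theorem mvt_degen {k t p : ℕ} (hk : 2 ≤ k) (ht : 2 * k ≤ t) (hp : 64 * k ^ 4 ≤ p) :
    4 * p ^ (2 * (k - 1)) * k ^ (2 * t) * 4 ^ t ≤ p ^ (t + k) := by
  have hp1 : 1 ≤ p := by
    have : 0 < k ^ 4 := by positivity
    omega
  have h1 : 4 * k ^ (2 * t) * 4 ^ t ≤ p ^ (t - k + 2) := by
    have h2 : (4 * k ^ (2 * t) * 4 ^ t) ^ 2 ≤ (p ^ (t - k + 2)) ^ 2 := by
      have h3 : (4 * k ^ (2 * t) * 4 ^ t) ^ 2 = 4 ^ 2 * (16 * k ^ 4) ^ t := by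
        rw [mul_pow 16, ← pow_mul k 4 t, mul_pow, mul_pow, ← pow_mul, ← pow_mul,
          show (16 : ℕ) = 4 ^ 2 by norm_num, ← pow_mul 4 2 t]
        rw [show 2 * t * 2 = 4 * t by ring, show t * 2 = 2 * t by ring]
        ring
      rw [h3]
      calc 4 ^ 2 * (16 * k ^ 4) ^ t ≤ 4 ^ t * (16 * k ^ 4) ^ t :=
            Nat.mul_le_mul_right _ (Nat.pow_le_pow_right (by norm_num) (by omega))
        _ = (64 * k ^ 4) ^ t := by
            rw [← mul_pow]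
            congr 1
            ring
        _ ≤ p ^ t := Nat.pow_le_pow_left hp t
        _ ≤ p ^ ((t - k + 2) * 2) := Nat.pow_le_pow_right hp1 (by omega)
        _ = (p ^ (t - k + 2)) ^ 2 := by rw [pow_mul]
    exact (Nat.pow_le_pow_iff_left (by norm_num)).1 h2
  calc 4 * p ^ (2 * (k - 1)) * k ^ (2 * t) * 4 ^ t
      = p ^ (2 * (k - 1)) * (4 * k ^ (2 * t) * 4 ^ t) := by ring
    _ ≤ p ^ (2 * (k - 1)) * p ^ (t - k + 2) := Nat.mul_le_mul_left _ h1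
    _ = p ^ (t + k) := by
        rw [← pow_add]
        congr 1
        omega

/-- the choice of the prime -/
private theorem mvt_prime {k P : ℕ} (hk : 2 ≤ k) (hP : (64 * k ^ 4) ^ k ≤ P) :
    ∃ p : ℕ, p.Prime ∧ 64 * k ^ 4 ≤ p ∧ P ≤ p ^ k ∧ (p : ℝ) ≤ 4 * (P : ℝ) ^ (1 / (k : ℝ)) ∧
      p ≤ P := by
  set Q : ℝ := (P : ℝ) ^ (1 / (k : ℝ)) with hQ
  have hk0 : (k : ℝ) ≠ 0 := by
    have : 0 < k := by omega
    positivity
  have hk0' : k ≠ 0 := by omega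
  have hk1 : 16 ≤ k ^ 4 := by
    calc 16 = 2 ^ 4 := by norm_num
      _ ≤ k ^ 4 := Nat.pow_le_pow_left hk 4
  have hQk : Q ^ k = P := by
    rw [hQ, ← Real.rpow_natCast, ← Real.rpow_mul (Nat.cast_nonneg _), one_div,
      inv_mul_cancel₀ hk0, Real.rpow_one]
  have hQ0 : 0 ≤ Q := Real.rpow_nonneg (Nat.cast_nonneg _) _
  have hQ64 : (64 * k ^ 4 : ℝ) ≤ Q := by
    have h1 : ((64 * k ^ 4 : ℝ)) ^ k ≤ Q ^ k := by
      rw [hQk]
      exact_mod_cast hP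
    exact (pow_le_pow_iff_left₀ (by positivity) hQ0 hk0').1 h1
  have hQ4 : (1024 : ℝ) ≤ Q := by
    have h1 : (16 : ℝ) ≤ (k : ℝ) ^ 4 := by exact_mod_cast hk1
    linarith
  obtain ⟨p, hp, hp1, hp2⟩ := Nat.exists_prime_lt_and_le_two_mul ⌈Q⌉₊ (by
    have : 0 < ⌈Q⌉₊ := Nat.ceil_pos.2 (by linarith)
    omega)
  have hQp : Q ≤ p := by
    have h1 : (⌈Q⌉₊ : ℝ) ≤ p := by exact_mod_cast hp1.le
    exact (Nat.le_ceil Q).trans h1
  have hp4 : (p : ℝ) ≤ 4 * Q := by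
    have h1 : (p : ℝ) ≤ 2 * ⌈Q⌉₊ := by exact_mod_cast hp2
    have h2 := Nat.ceil_lt_add_one hQ0
    linarith
  refine ⟨p, hp, ?_, ?_, hp4, ?_⟩
  · have h1 : (64 * k ^ 4 : ℝ) ≤ p := hQ64.trans hQp
    exact_mod_cast h1
  · have h1 : (P : ℝ) ≤ (p : ℝ) ^ k := by
      rw [← hQk]
      exact pow_le_pow_left₀ hQ0 hQp k
    exact_mod_cast h1
  · have h1 : (p : ℝ) ≤ P := by
      rw [← hQk]
      calc (p : ℝ) ≤ 4 * Q := hp4
        _ ≤ Q * Q := mul_le_mul_of_nonneg_right (by linarith) hQ0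
        _ = Q ^ 2 := by ring
        _ ≤ Q ^ k := pow_le_pow_right₀ (by linarith) hk
    exact_mod_cast h1

/-- small values -/
private theorem mvt_small {k m : ℕ} (hk : 2 ≤ k) (hm : 1 ≤ m) (τ : ℕ) (h1 : 1 ≤ τ) (P : ℕ)
    (hP : 1 ≤ P) (hPs : P ≤ (64 * k ^ 4) ^ k) :
    (JP k (k * τ) P : ℝ) ≤ ((64 * m * k ^ 4 : ℝ) ^ (m * k ^ 3)) ^ τ * (P : ℝ) ^ (EE k τ) := by
  have hPR : (1 : ℝ) ≤ P := by exact_mod_cast hP
  have hP0 : (0 : ℝ) < P := by linarith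
  have hJ : (JP k (k * τ) P : ℝ) ≤ (P : ℝ) ^ (2 * (k * τ)) := by exact_mod_cast JP_le k (k * τ) P
  have e1 : (P : ℝ) ^ (2 * (k * τ)) = (P : ℝ) ^ (2 * k * τ - EE k τ : ℝ) * (P : ℝ) ^ (EE k τ) := by
    rw [← Real.rpow_add hP0, ← Real.rpow_natCast]
    congr 1
    push_cast
    ring
  have e2 : (P : ℝ) ^ (2 * k * τ - EE k τ : ℝ) ≤ (P : ℝ) ^ (k ^ 2 : ℕ) := by
    rw [← Real.rpow_natCast]
    refine Real.rpow_le_rpow_of_exponent_le hPR ((EE_ge hk τ).trans ?_)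
    push_cast
    have h2 : (2 : ℝ) ≤ k := by exact_mod_cast hk
    nlinarith
  have e3 : (P : ℝ) ^ (k ^ 2 : ℕ) ≤ ((64 * m * k ^ 4 : ℝ) ^ (m * k ^ 3)) ^ τ := by
    have h2 : P ^ (k ^ 2) ≤ ((64 * m * k ^ 4) ^ (m * k ^ 3)) ^ τ := by
      calc P ^ (k ^ 2) ≤ ((64 * k ^ 4) ^ k) ^ (k ^ 2) := Nat.pow_le_pow_left hPs _
        _ = (64 * k ^ 4) ^ (1 * k ^ 3 * 1) := by
            rw [← pow_mul]
            congr 1
            ring
        _ ≤ (64 * m * k ^ 4) ^ (1 * k ^ 3 * 1) := by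
            refine Nat.pow_le_pow_left ?_ _
            calc 64 * k ^ 4 = 64 * 1 * k ^ 4 := by ring
              _ ≤ 64 * m * k ^ 4 := Nat.mul_le_mul_right _ (Nat.mul_le_mul_left _ hm)
        _ ≤ (64 * m * k ^ 4) ^ (m * k ^ 3 * τ) := by
            refine Nat.pow_le_pow_right (by positivity) ?_
            exact Nat.mul_le_mul (Nat.mul_le_mul_right _ hm) h1
        _ = _ := by rw [pow_mul]
    exact_mod_cast h2
  calc (JP k (k * τ) P : ℝ) ≤ (P : ℝ) ^ (2 * k * τ - EE k τ : ℝ) * (P : ℝ) ^ (EE k τ) := by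
        rw [← e1]
        exact hJ
    _ ≤ ((64 * m * k ^ 4 : ℝ) ^ (m * k ^ 3)) ^ τ * (P : ℝ) ^ (EE k τ) :=
        mul_le_mul_of_nonneg_right (e2.trans e3) (Real.rpow_nonneg hP0.le _)

theorem mvt {k m : ℕ} (hk : 2 ≤ k) (hm : 1 ≤ m) (τ : ℕ) (h1 : 1 ≤ τ) (h2 : τ ≤ m * k) (P : ℕ)
    (hP : 1 ≤ P) :
    (JP k (k * τ) P : ℝ) ≤ ((64 * m * k ^ 4 : ℝ) ^ (m * k ^ 3)) ^ τ * (P : ℝ) ^ (EE k τ) := by
  set z : ℝ := (64 * m * k ^ 4 : ℝ) ^ (m * k ^ 3) with hz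
  have hkR : (2 : ℝ) ≤ k := by exact_mod_cast hk
  have hmR : (1 : ℝ) ≤ m := by exact_mod_cast hm
  have hz1 : (1 : ℝ) ≤ z := by
    refine one_le_pow₀ ?_
    have : (1 : ℝ) ≤ (k : ℝ) ^ 4 := one_le_pow₀ (by linarith)
    nlinarith
  induction τ, h1 using Nat.le_induction generalizing P with
  | base =>
    have hPR : (1 : ℝ) ≤ P := by exact_mod_cast hP
    have hJ : (JP k (k * 1) P : ℝ) ≤ (P : ℝ) ^ (2 * (k * 1)) := by
      exact_mod_cast JP_le k (k * 1) P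
    rw [EE_one, pow_one]
    calc (JP k (k * 1) P : ℝ) ≤ (P : ℝ) ^ (2 * (k * 1)) := hJ
      _ = 1 * (P : ℝ) ^ (2 * k : ℝ) := by
          rw [one_mul, ← Real.rpow_natCast]
          congr 1
          push_cast
          ring
      _ ≤ z * (P : ℝ) ^ (2 * k : ℝ) := mul_le_mul_of_nonneg_right hz1 (by positivity)
  | succ τ h1 ih =>
    have ihτ := ih (by omega)
    clear ih
    induction P using Nat.strong_induction_on with
    | _ P ihP =>
    rcases le_or_gt P ((64 * k ^ 4) ^ k) with hPs | hPl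
    · exact mvt_small hk hm (τ + 1) (by omega) P hP hPs
    obtain ⟨p, hp, hp64, hPp, hp4, hpP⟩ := mvt_prime hk hPl.le
    have hk16 : 16 ≤ k ^ 4 := by
      calc 16 = 2 ^ 4 := by norm_num
        _ ≤ k ^ 4 := Nat.pow_le_pow_left hk 4
    have hkp : k < p := by
      have : k ≤ k ^ 4 := Nat.le_self_pow (by norm_num) k
      omega
    have hPR : (1 : ℝ) ≤ P := by exact_mod_cast hP
    have hP0 : (0 : ℝ) < P := by linarith
    have hp0 : (0 : ℝ) < p := by exact_mod_cast hp.pos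
    have hp1 : (1 : ℝ) ≤ p := by exact_mod_cast hp.one_lt.le
    -- the size of P'
    have hP'1 : 1 ≤ P / p + 1 := Nat.le_add_left 1 _
    have hP'R : ((P / p + 1 : ℕ) : ℝ) ≤ 2 * P / p := by
      have h3 : ((P / p : ℕ) : ℝ) ≤ P / p := Nat.cast_div_le
      have h4 : (1 : ℝ) ≤ P / p := by
        rw [le_div_iff₀ hp0, one_mul]
        exact_mod_cast hpP
      push_cast
      have h5 : 2 * (P : ℝ) / p = P / p + P / p := by ring
      rw [h5]
      linarith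
    have hP'P : P / p + 1 < P := by
      have h3 : ((P / p + 1 : ℕ) : ℝ) < P := by
        refine hP'R.trans_lt ?_
        rw [div_lt_iff₀ hp0]
        have : (2 : ℝ) < p := by
          have : 2 < p := by omega
          exact_mod_cast this
        nlinarith
      exact_mod_cast h3
    have hrpow : ∀ E : ℝ, 0 ≤ E → ((P / p + 1 : ℕ) : ℝ) ^ E ≤
        (2 : ℝ) ^ E * (P : ℝ) ^ E * (p : ℝ) ^ (-E) := by
      intro E hE
      calc ((P / p + 1 : ℕ) : ℝ) ^ E ≤ (2 * P / p : ℝ) ^ E :=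
            Real.rpow_le_rpow (Nat.cast_nonneg _) hP'R hE
        _ = (2 : ℝ) ^ E * (P : ℝ) ^ E * (p : ℝ) ^ (-E) := by
            rw [Real.div_rpow (by positivity) hp0.le, Real.mul_rpow (by norm_num) hP0.le,
              Real.rpow_neg hp0.le, div_eq_mul_inv]
    have ht : k * τ + k = k * (τ + 1) := by ring
    have hrec := recursion hk hp hkp hPp (k * τ)
    rw [ht] at hrec
    have hJt := ihP (P / p + 1) hP'P hP'1
    have hJs := ihτ (P / p + 1) hP'1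
    set E := EE k (τ + 1) with hE
    set E₀ := EE k τ with hE₀
    have hEl : (k : ℝ) * (τ + 1) + k ≤ E := by
      have := EE_lower (τ := τ + 1) hk (by omega)
      push_cast at this
      exact this
    have hEu : E ≤ 2 * k * (τ + 1) := by
      have := EE_upper hk (τ + 1)
      push_cast at this
      exact this
    have hE₀l : (k : ℝ) * τ + k ≤ E₀ := EE_lower hk h1
    have hE₀u : E₀ ≤ 2 * k * τ := EE_upper hk τ
    have hτR : (1 : ℝ) ≤ τ := by exact_mod_cast h1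
    have hE0 : 0 ≤ E := le_trans (by positivity) hEl
    have hE₀0 : 0 ≤ E₀ := le_trans (by positivity) hE₀l
    -- the degenerate part
    have hD : (2 * (p ^ (2 * (k - 1)) * k ^ (2 * (k * (τ + 1))) *
        JP k (k * (τ + 1)) (P / p + 1) : ℕ) : ℝ) ≤ 1 / 2 * (z ^ (τ + 1) * (P : ℝ) ^ E) := by
      have h3 := mvt_degen (t := k * (τ + 1)) hk (by
        have := Nat.mul_le_mul_left k (show 2 ≤ τ + 1 by omega)
        omega) hp64
      have h3' : 4 * (p : ℝ) ^ (2 * (k - 1)) * (k : ℝ) ^ (2 * (k * (τ + 1))) *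
          4 ^ (k * (τ + 1)) ≤ (p : ℝ) ^ (k * (τ + 1) + k) := by exact_mod_cast h3
      have h4 : (2 : ℝ) ^ E ≤ 4 ^ (k * (τ + 1)) := by
        calc (2 : ℝ) ^ E ≤ (2 : ℝ) ^ (2 * k * (τ + 1) : ℝ) :=
              Real.rpow_le_rpow_of_exponent_le (by norm_num) hEu
          _ = ((2 : ℝ) ^ 2) ^ (k * (τ + 1)) := by
              rw [← pow_mul, ← Real.rpow_natCast]
              congr 1
              push_cast
              ring
          _ = 4 ^ (k * (τ + 1)) := by norm_num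
      have h5 : (p : ℝ) ^ (k * (τ + 1) + k) ≤ (p : ℝ) ^ E := by
        rw [← Real.rpow_natCast]
        refine Real.rpow_le_rpow_of_exponent_le hp1 ?_
        push_cast
        exact hEl
      have h6 : 2 * ((p : ℝ) ^ (2 * (k - 1)) * (k : ℝ) ^ (2 * (k * (τ + 1)))) *
          ((2 : ℝ) ^ E * (p : ℝ) ^ (-E)) ≤ 1 / 2 := by
        have h7 : 4 * ((p : ℝ) ^ (2 * (k - 1)) * (k : ℝ) ^ (2 * (k * (τ + 1)))) * (2 : ℝ) ^ E ≤
            (p : ℝ) ^ E := by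
          calc 4 * ((p : ℝ) ^ (2 * (k - 1)) * (k : ℝ) ^ (2 * (k * (τ + 1)))) * (2 : ℝ) ^ E
              ≤ 4 * ((p : ℝ) ^ (2 * (k - 1)) * (k : ℝ) ^ (2 * (k * (τ + 1)))) *
                4 ^ (k * (τ + 1)) := mul_le_mul_of_nonneg_left h4 (by positivity)
            _ = 4 * (p : ℝ) ^ (2 * (k - 1)) * (k : ℝ) ^ (2 * (k * (τ + 1))) *
                4 ^ (k * (τ + 1)) := by ring
            _ ≤ (p : ℝ) ^ E := h3'.trans h5
        have h8 : 0 < (p : ℝ) ^ E := Real.rpow_pos_of_pos hp0 _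
        rw [Real.rpow_neg hp0.le]
        have h9 : 2 * ((p : ℝ) ^ (2 * (k - 1)) * (k : ℝ) ^ (2 * (k * (τ + 1)))) *
          ((2 : ℝ) ^ E * ((p : ℝ) ^ E)⁻¹) = (4 * ((p : ℝ) ^ (2 * (k - 1)) *
            (k : ℝ) ^ (2 * (k * (τ + 1)))) * (2 : ℝ) ^ E) / (2 * (p : ℝ) ^ E) := by
          field_simp
          ring
        rw [h9, div_le_iff₀ (by positivity)]
        linarith
      push_cast
      calc 2 * ((p : ℝ) ^ (2 * (k - 1)) * (k : ℝ) ^ (2 * (k * (τ + 1))) *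
            (JP k (k * (τ + 1)) (P / p + 1) : ℝ))
          ≤ 2 * ((p : ℝ) ^ (2 * (k - 1)) * (k : ℝ) ^ (2 * (k * (τ + 1))) *
            (z ^ (τ + 1) * ((2 : ℝ) ^ E * (P : ℝ) ^ E * (p : ℝ) ^ (-E)))) := by
            refine mul_le_mul_of_nonneg_left ?_ (by norm_num)
            refine mul_le_mul_of_nonneg_left ?_ (by positivity)
            exact hJt.trans (mul_le_mul_of_nonneg_left (hrpow E hE0) (by positivity))
        _ = (2 * ((p : ℝ) ^ (2 * (k - 1)) * (k : ℝ) ^ (2 * (k * (τ + 1)))) *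
            ((2 : ℝ) ^ E * (p : ℝ) ^ (-E))) * (z ^ (τ + 1) * (P : ℝ) ^ E) := by ring
        _ ≤ 1 / 2 * (z ^ (τ + 1) * (P : ℝ) ^ E) :=
            mul_le_mul_of_nonneg_right h6 (by positivity)
    -- the main part
    have hM : (2 * (((k * (τ + 1)).choose k) ^ 2 * (p ^ (2 * (k * τ)) *
        (k.factorial * p ^ (k * (k - 1) / 2) * P ^ k * JP k (k * τ) (P / p + 1)) : ℕ) : ℕ) : ℝ) ≤
        1 / 2 * (z ^ (τ + 1) * (P : ℝ) ^ E) := by
      have hC : ((k * (τ + 1)).choose k : ℝ) ≤ (m * k ^ 2 : ℕ) ^ k := by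
        have h3 : (k * (τ + 1)).choose k ≤ (m * k ^ 2) ^ k := by
          refine (Nat.choose_le_pow _ _).trans (Nat.pow_le_pow_left ?_ k)
          calc k * (τ + 1) ≤ k * (m * k) := Nat.mul_le_mul_left k h2
            _ = m * k ^ 2 := by ring
        exact_mod_cast h3
      have hfac : (k.factorial : ℝ) ≤ (k : ℝ) ^ k := by exact_mod_cast Nat.factorial_le_pow k
      have h2E : (2 : ℝ) ^ E₀ ≤ 4 ^ (m * k ^ 2) := by
        calc (2 : ℝ) ^ E₀ ≤ (2 : ℝ) ^ ((2 * (m * k ^ 2) : ℕ) : ℝ) := by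
              refine Real.rpow_le_rpow_of_exponent_le (by norm_num) (hE₀u.trans ?_)
              have h3 : k * τ ≤ m * k ^ 2 := by
                calc k * τ ≤ k * (m * k) := Nat.mul_le_mul_left k (by omega)
                  _ = m * k ^ 2 := by ring
              have h4 : (k : ℝ) * τ ≤ ((m * k ^ 2 : ℕ) : ℝ) := by exact_mod_cast h3
              push_cast at h4 ⊢
              linarith
          _ = ((2 : ℝ) ^ 2) ^ (m * k ^ 2) := by rw [Real.rpow_natCast, pow_mul]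
          _ = 4 ^ (m * k ^ 2) := by norm_num
      -- the power of p
      have heta : E₀ = 2 * k * τ - (k : ℝ) * (k + 1) / 2 + eta k τ := rfl
      have hη := eta_le hk τ
      have hη0 := eta_nonneg hk τ
      have hdiv : ((k * (k - 1) / 2 : ℕ) : ℝ) = (k : ℝ) * (k - 1) / 2 := by
        have h3 : 2 ∣ k * (k - 1) := (Nat.even_mul_pred_self k).two_dvd
        rw [Nat.cast_div h3 (by norm_num)]
        push_cast [Nat.cast_sub (show 1 ≤ k by omega)]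
        ring
      have hpp : (p : ℝ) ^ (2 * (k * τ)) * (p : ℝ) ^ (k * (k - 1) / 2) * (p : ℝ) ^ (-E₀) =
          (p : ℝ) ^ ((k : ℝ) ^ 2 - eta k τ) := by
        rw [← Real.rpow_natCast, ← Real.rpow_natCast, ← Real.rpow_add hp0, ← Real.rpow_add hp0]
        congr 1
        rw [hdiv, heta]
        push_cast
        ring
      have hpb : (p : ℝ) ^ ((k : ℝ) ^ 2 - eta k τ) ≤ 4 ^ (m * k ^ 2) *
          (P : ℝ) ^ ((k : ℝ) - eta k τ / k) := by
        have hx : 0 ≤ (k : ℝ) ^ 2 - eta k τ := by nlinarith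
        calc (p : ℝ) ^ ((k : ℝ) ^ 2 - eta k τ)
            ≤ (4 * (P : ℝ) ^ (1 / (k : ℝ))) ^ ((k : ℝ) ^ 2 - eta k τ) :=
              Real.rpow_le_rpow hp0.le hp4 hx
          _ = (4 : ℝ) ^ ((k : ℝ) ^ 2 - eta k τ) * (P : ℝ) ^ ((k : ℝ) - eta k τ / k) := by
              rw [Real.mul_rpow (by norm_num) (by positivity), ← Real.rpow_mul hP0.le]
              congr 2
              have : (k : ℝ) ≠ 0 := by positivity
              field_simp
          _ ≤ 4 ^ (m * k ^ 2) * (P : ℝ) ^ ((k : ℝ) - eta k τ / k) := by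
              refine mul_le_mul_of_nonneg_right ?_ (by positivity)
              have hx2 : (k : ℝ) ^ 2 - eta k τ ≤ ((m * k ^ 2 : ℕ) : ℝ) := by
                have hm1 : (1 : ℝ) ≤ m := by
                  have : 1 ≤ m := by omega
                  exact_mod_cast this
                have hk2 : (0 : ℝ) ≤ (k : ℝ) ^ 2 := by positivity
                have hmk : (k : ℝ) ^ 2 ≤ m * (k : ℝ) ^ 2 := by
                  calc (k : ℝ) ^ 2 = 1 * (k : ℝ) ^ 2 := by ring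
                    _ ≤ m * (k : ℝ) ^ 2 := mul_le_mul_of_nonneg_right hm1 hk2
                push_cast
                linarith
              calc (4 : ℝ) ^ ((k : ℝ) ^ 2 - eta k τ)
                  ≤ (4 : ℝ) ^ (((m * k ^ 2 : ℕ) : ℝ)) :=
                    Real.rpow_le_rpow_of_exponent_le (by norm_num) hx2
                _ = 4 ^ (m * k ^ 2) := Real.rpow_natCast _ _
      have hPE : (P : ℝ) ^ k * (P : ℝ) ^ E₀ * (P : ℝ) ^ ((k : ℝ) - eta k τ / k) = (P : ℝ) ^ E := by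
        rw [← Real.rpow_natCast, ← Real.rpow_add hP0, ← Real.rpow_add hP0]
        congr 1
        rw [hE, EE_succ hk h1]
        ring
      have hconst : 4 * ((m * k ^ 2 : ℕ) : ℝ) ^ (2 * k) * (k : ℝ) ^ k * 16 ^ (m * k ^ 2) ≤ z := by
        rw [hz]
        exact_mod_cast mvt_const hk hm
      push_cast
      have hC2 : ((k * (τ + 1)).choose k : ℝ) ^ 2 ≤ ((m * k ^ 2 : ℕ) : ℝ) ^ (2 * k) := by
        calc ((k * (τ + 1)).choose k : ℝ) ^ 2 ≤ (((m * k ^ 2 : ℕ) : ℝ) ^ k) ^ 2 :=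
              pow_le_pow_left₀ (Nat.cast_nonneg _) hC 2
          _ = _ := by rw [← pow_mul, mul_comm k 2]
      calc 2 * (((k * (τ + 1)).choose k : ℝ) ^ 2 * ((p : ℝ) ^ (2 * (k * τ)) *
            ((k.factorial : ℝ) * (p : ℝ) ^ (k * (k - 1) / 2) * (P : ℝ) ^ k *
              (JP k (k * τ) (P / p + 1) : ℝ))))
          ≤ 2 * (((k * (τ + 1)).choose k : ℝ) ^ 2 * ((p : ℝ) ^ (2 * (k * τ)) *
            ((k.factorial : ℝ) * (p : ℝ) ^ (k * (k - 1) / 2) * (P : ℝ) ^ k *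
              (z ^ τ * ((2 : ℝ) ^ E₀ * (P : ℝ) ^ E₀ * (p : ℝ) ^ (-E₀)))))) := by
            refine mul_le_mul_of_nonneg_left ?_ (by norm_num)
            refine mul_le_mul_of_nonneg_left ?_ (by positivity)
            refine mul_le_mul_of_nonneg_left ?_ (by positivity)
            refine mul_le_mul_of_nonneg_left ?_ (by positivity)
            exact hJs.trans (mul_le_mul_of_nonneg_left (hrpow E₀ hE₀0) (by positivity))
        _ = 2 * z ^ τ * (((k * (τ + 1)).choose k : ℝ) ^ 2 * (k.factorial : ℝ) * (2 : ℝ) ^ E₀ *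
              ((P : ℝ) ^ k * (P : ℝ) ^ E₀) * ((p : ℝ) ^ (2 * (k * τ)) *
                (p : ℝ) ^ (k * (k - 1) / 2) * (p : ℝ) ^ (-E₀))) := by ring
        _ = 2 * z ^ τ * (((k * (τ + 1)).choose k : ℝ) ^ 2 * (k.factorial : ℝ) * (2 : ℝ) ^ E₀ *
              ((P : ℝ) ^ k * (P : ℝ) ^ E₀) * (p : ℝ) ^ ((k : ℝ) ^ 2 - eta k τ)) := by rw [hpp]
        _ ≤ 2 * z ^ τ * (((m * k ^ 2 : ℕ) : ℝ) ^ (2 * k) * (k : ℝ) ^ k * 4 ^ (m * k ^ 2) *
              ((P : ℝ) ^ k * (P : ℝ) ^ E₀) * (4 ^ (m * k ^ 2) *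
                (P : ℝ) ^ ((k : ℝ) - eta k τ / k))) := by
            refine mul_le_mul_of_nonneg_left ?_ (by positivity)
            refine mul_le_mul ?_ hpb (by positivity) (by positivity)
            refine mul_le_mul_of_nonneg_right ?_ (by positivity)
            refine mul_le_mul ?_ h2E (by positivity) (by positivity)
            exact mul_le_mul hC2 hfac (by positivity) (by positivity)
        _ = 1 / 2 * (z ^ τ * (4 * ((m * k ^ 2 : ℕ) : ℝ) ^ (2 * k) * (k : ℝ) ^ k *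
              (4 ^ (m * k ^ 2) * 4 ^ (m * k ^ 2))) *
              ((P : ℝ) ^ k * (P : ℝ) ^ E₀ * (P : ℝ) ^ ((k : ℝ) - eta k τ / k))) := by ring
        _ = 1 / 2 * (z ^ τ * (4 * ((m * k ^ 2 : ℕ) : ℝ) ^ (2 * k) * (k : ℝ) ^ k *
              16 ^ (m * k ^ 2)) * (P : ℝ) ^ E) := by
            rw [hPE, ← mul_pow]
            norm_num
        _ ≤ 1 / 2 * (z ^ τ * z * (P : ℝ) ^ E) := by
            refine mul_le_mul_of_nonneg_left ?_ (by norm_num)
            refine mul_le_mul_of_nonneg_right ?_ (by positivity)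
            exact mul_le_mul_of_nonneg_left hconst (by positivity)
        _ = 1 / 2 * (z ^ (τ + 1) * (P : ℝ) ^ E) := by rw [pow_succ]
    have hrecR : (JP k (k * (τ + 1)) P : ℝ) ≤
        (2 * (((k * (τ + 1)).choose k) ^ 2 * (p ^ (2 * (k * τ)) *
        (k.factorial * p ^ (k * (k - 1) / 2) * P ^ k * JP k (k * τ) (P / p + 1)) : ℕ) : ℕ) : ℝ) +
        (2 * (p ^ (2 * (k - 1)) * k ^ (2 * (k * (τ + 1))) *
          JP k (k * (τ + 1)) (P / p + 1) : ℕ) : ℝ) := by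
      exact_mod_cast hrec
    linarith

theorem mvt_cor {k m : ℕ} (hk : 2 ≤ k) (hm : 1 ≤ m) (P : ℕ) (hP : 1 ≤ P) :
    (JP k (m * k ^ 2) P : ℝ) ≤ (64 * m * k ^ 4 : ℝ) ^ (m ^ 2 * k ^ 4) *
      (P : ℝ) ^ (2 * m * k ^ 2 - (k : ℝ) * (k + 1) / 2 + 2 * Real.exp (-m) * k ^ 2) := by
  have h1 := mvt hk hm (m * k) (by nlinarith) le_rfl P hP
  have e1 : k * (m * k) = m * k ^ 2 := by ring
  have e2 : m * k ^ 3 * (m * k) = m ^ 2 * k ^ 4 := by ring
  rw [e1, ← pow_mul, e2] at h1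
  refine h1.trans (mul_le_mul_of_nonneg_left ?_ (by positivity))
  refine Real.rpow_le_rpow_of_exponent_le (by exact_mod_cast hP) ?_
  have h3 := eta_final hk hm
  unfold EE
  push_cast
  nlinarith

end Pool.Agent.VMV
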