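import Pool.Agent.VMV.BilA

/-!
# VMV / WBd: bounds for `W α M = ∑_{|μ| ≤ M} |∑_{|l| ≤ M} e(α l μ)|`

PROOFS.  `W_triv`: there are `2 M + 1 ≤ 3 M` values of `μ` and of `l`.
`geom`: if `|θ - j| ≥ t` for all integers `j` (`t > 0`) then `‖∑_{|l| ≤ M} e(θ l)‖ ≤ 1 / (2 t)`: the sum
is `e(-M θ) (1 - e((2M+1) θ)) / (1 - e θ)`, of absolute value `≤ 1 / |sin π θ|`, and
`|sin π θ| ≥ 2 dist(θ, ℤ) ≥ 2 t` (concavity of the sine: `Real.mul_le_sin`-like:
`2/π x ≤ sin x` on `[0, π/2]`).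
`W_le`: let `t = √|α| / 2 ≤ 1/2`. The number of the `μ ∈ [-M, M]` such that `|α μ - j| < t` for some
integer `j` is at most `(2 M |α| + 2) (2 t / |α| + 1)`: `|j| ≤ M |α| + t`, so there are at most
`2 (M |α| + 1/2) + 1` values of `j`, and for each `j` the `μ` lie in an open interval of length
`2 t / |α|` and are at most `2 t / |α| + 1` in number. For these `μ` the inner sum is at most
`2 M + 1 ≤ 3 M`, for the others at most `1 / (2 t) = 1 / √|α|` (`geom`), and they are at most `3 M`.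
`2 t / |α| + 1 = 1/√|α| + 1 ≤ 2/√|α|`. Total: `3 M (2 M |α| + 2) (2/√|α|) + 3 M / √|α|
= 12 M^2 √|α| + 15 M / √|α|`.
-/

set_option autoImplicit false

namespace Pool.Agent.VMV

theorem wbd_inner_le (f : ℤ → ℝ) {M : ℕ} (hM : 1 ≤ M) :
    ‖∑ l ∈ Finset.Icc (-(M : ℤ)) M, e (f l)‖ ≤ 3 * M := by
  refine (norm_sum_le _ _).trans ?_
  simp only [norm_e, Finset.sum_const, nsmul_eq_mul, mul_one]
  have h1 : (Finset.Icc (-(M : ℤ)) M).card = 2 * M + 1 := by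
    rw [Int.card_Icc]; omega
  rw [h1]
  have h2 : (1 : ℝ) ≤ M := by exact_mod_cast hM
  push_cast
  linarith

theorem wbd_card {M : ℕ} (hM : 1 ≤ M) : ((Finset.Icc (-(M : ℤ)) M).card : ℝ) ≤ 3 * M := by
  have h1 : (Finset.Icc (-(M : ℤ)) M).card = 2 * M + 1 := by
    rw [Int.card_Icc]; omega
  rw [h1]
  have h2 : (1 : ℝ) ≤ M := by exact_mod_cast hM
  push_cast
  linarith

theorem W_triv (α : ℝ) {M : ℕ} (hM : 1 ≤ M) : W α M ≤ 9 * (M : ℝ) ^ 2 := by
  unfold W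
  have h2 : (1 : ℝ) ≤ M := by exact_mod_cast hM
  calc ∑ μ ∈ Finset.Icc (-(M : ℤ)) M, ‖∑ l ∈ Finset.Icc (-(M : ℤ)) M, e (α * l * μ)‖
      ≤ ∑ μ ∈ Finset.Icc (-(M : ℤ)) M, 3 * (M : ℝ) :=
        Finset.sum_le_sum fun μ _ => wbd_inner_le (fun l => α * l * μ) hM
    _ = (Finset.Icc (-(M : ℤ)) M).card * (3 * (M : ℝ)) := by
        rw [Finset.sum_const, nsmul_eq_mul]
    _ ≤ (3 * M) * (3 * (M : ℝ)) := by
        gcongr
        exact wbd_card hM
    _ = 9 * (M : ℝ) ^ 2 := by ring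

theorem wbd_tele (θ : ℝ) (M : ℕ) :
    (e (θ / 2) - e (-(θ / 2))) * ∑ l ∈ Finset.Icc (-(M : ℤ)) M, e (θ * l) =
      e (θ * (M + 1 / 2)) - e (-(θ * (M + 1 / 2))) := by
  induction M with
  | zero =>
    have h0 : e (θ * ((0 : ℤ) : ℝ)) = 1 := by
      simp [e]
    simp only [Nat.cast_zero, neg_zero, Finset.Icc_self, Finset.sum_singleton]
    rw [h0, mul_one, zero_add]
    congr 2 <;> ring
  | succ M ih =>
    have h1 : Finset.Icc (-((M + 1 : ℕ) : ℤ)) ((M + 1 : ℕ) : ℤ) =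
        insert ((M : ℤ) + 1) (insert (-((M : ℤ) + 1)) (Finset.Icc (-(M : ℤ)) M)) := by
      ext l
      simp only [Finset.mem_Icc, Finset.mem_insert]
      push_cast
      omega
    rw [h1, Finset.sum_insert, Finset.sum_insert, mul_add, mul_add, ih, sub_mul, sub_mul,
      ← e_add, ← e_add, ← e_add, ← e_add]
    · push_cast
      have e1 : θ / 2 + θ * ((M : ℝ) + 1) = θ * ((M : ℝ) + 1 + 1 / 2) := by ring
      have e2 : -(θ / 2) + θ * ((M : ℝ) + 1) = θ * ((M : ℝ) + 1 / 2) := by ring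
      have e3 : θ / 2 + θ * (-1 + -(M : ℝ)) = -(θ * ((M : ℝ) + 1 / 2)) := by ring
      have e4 : -(θ / 2) + θ * (-1 + -(M : ℝ)) = -(θ * ((M : ℝ) + 1 + 1 / 2)) := by ring
      have e3' : θ / 2 + θ * (-((M : ℝ) + 1)) = -(θ * ((M : ℝ) + 1 / 2)) := by ring
      have e4' : -(θ / 2) + θ * (-((M : ℝ) + 1)) = -(θ * ((M : ℝ) + 1 + 1 / 2)) := by ring
      first
        | rw [e1, e2, e3, e4]; ring
        | rw [e1, e2, e3', e4']; ring
    · simp only [Finset.mem_Icc]; omega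
    · simp only [Finset.mem_insert, Finset.mem_Icc]; omega

theorem wbd_sin (θ : ℝ) : ‖e (θ / 2) - e (-(θ / 2))‖ = 2 * |Real.sin (Real.pi * θ)| := by
  have h1 : e (θ / 2) - e (-(θ / 2)) = 2 * Complex.I * Complex.sin ((Real.pi * θ : ℝ) : ℂ) := by
    unfold e
    have h2 := Complex.two_sin ((Real.pi * θ : ℝ) : ℂ)
    have h3 : 2 * Complex.I * Complex.sin ((Real.pi * θ : ℝ) : ℂ) =
        Complex.I * (2 * Complex.sin ((Real.pi * θ : ℝ) : ℂ)) := by ring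
    rw [h3, h2]
    have h4 : (2 * Real.pi * Complex.I * ((θ / 2 : ℝ) : ℂ)) =
        ((Real.pi * θ : ℝ) : ℂ) * Complex.I := by push_cast; ring
    have h5 : (2 * Real.pi * Complex.I * ((-(θ / 2) : ℝ) : ℂ)) =
        -((Real.pi * θ : ℝ) : ℂ) * Complex.I := by push_cast; ring
    rw [h4, h5]
    have h6 : Complex.I * Complex.I = -1 := Complex.I_mul_I
    linear_combination (Complex.exp (-((Real.pi * θ : ℝ) : ℂ) * Complex.I) -
      Complex.exp (((Real.pi * θ : ℝ) : ℂ) * Complex.I)) * (-h6)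
  rw [h1, norm_mul, norm_mul, Complex.norm_I, ← Complex.ofReal_sin, Complex.norm_real]
  simp

theorem wbd_sin_ge (θ t : ℝ) (h : ∀ j : ℤ, t ≤ |θ - j|) : 2 * t ≤ |Real.sin (Real.pi * θ)| := by
  have hj := abs_sub_round θ
  set j := round θ with hjdef
  have h1 : |Real.sin (Real.pi * θ)| = |Real.sin (Real.pi * θ - j * Real.pi)| := by
    rw [Real.sin_sub_int_mul_pi, abs_mul]
    have : |((-1 : ℝ)) ^ j| = 1 := by
      rw [abs_zpow]; simp
    rw [this, one_mul]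
  have h2 : Real.pi * θ - j * Real.pi = Real.pi * (θ - j) := by ring
  rw [h1, h2]
  have hpi := Real.pi_pos
  have h3 : |Real.sin (Real.pi * (θ - j))| = |Real.sin (Real.pi * |θ - j|)| := by
    rcases abs_choice (θ - j) with h4 | h4
    · rw [h4]
    · rw [h4, mul_neg, Real.sin_neg, abs_neg]
  rw [h3]
  have h5 : 2 / Real.pi * (Real.pi * |θ - j|) ≤ Real.sin (Real.pi * |θ - j|) := by
    apply Real.mul_le_sin
    · positivity
    · nlinarith
  have h6 : 2 / Real.pi * (Real.pi * |θ - j|) = 2 * |θ - j| := by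
    field_simp
  rw [h6] at h5
  have h7 := h j
  have h8 := le_abs_self (Real.sin (Real.pi * |θ - j|))
  linarith

theorem geom (θ t : ℝ) (ht : 0 < t) (h : ∀ j : ℤ, t ≤ |θ - j|) (M : ℕ) :
    ‖∑ l ∈ Finset.Icc (-(M : ℤ)) M, e (θ * l)‖ ≤ 1 / (2 * t) := by
  have h1 := congrArg norm (wbd_tele θ M)
  rw [norm_mul, wbd_sin] at h1
  have h2 : ‖e (θ * (M + 1 / 2)) - e (-(θ * (M + 1 / 2)))‖ ≤ 2 := by
    refine (norm_sub_le _ _).trans ?_
    rw [norm_e, norm_e]; norm_num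
  have h3 := wbd_sin_ge θ t h
  rw [le_div_iff₀ (by positivity)]
  have h4 : 0 ≤ ‖∑ l ∈ Finset.Icc (-(M : ℤ)) M, e (θ * l)‖ := norm_nonneg _
  nlinarith

theorem wbd_card_int (a b : ℝ) (hab : a ≤ b) :
    ((Finset.Icc ⌈a⌉ ⌊b⌋).card : ℝ) ≤ b - a + 1 := by
  rw [Int.card_Icc]
  have h1 := Int.floor_le b
  have h2 := Int.le_ceil a
  rcases le_or_gt 0 (⌊b⌋ + 1 - ⌈a⌉) with h3 | h3
  · have h4 : (((⌊b⌋ + 1 - ⌈a⌉).toNat : ℕ) : ℝ) = ((⌊b⌋ + 1 - ⌈a⌉ : ℤ) : ℝ) := by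
      exact_mod_cast congrArg (fun z : ℤ => (z : ℝ)) (Int.toNat_of_nonneg h3)
    rw [h4]
    push_cast
    linarith
  · rw [Int.toNat_of_nonpos h3.le]
    push_cast
    linarith

open Classical in
theorem wbd_bad {α t : ℝ} (h0 : α ≠ 0) (ht : 0 < t) (ht2 : t ≤ 1 / 2) (M : ℕ) :
    (((Finset.Icc (-(M : ℤ)) M).filter fun μ : ℤ => ∃ j : ℤ, |α * μ - j| < t).card : ℝ) ≤
      (2 * M * |α| + 2) * (2 * t / |α| + 1) := by
  have hα : 0 < |α| := abs_pos.mpr h0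
  set X : ℝ := M * |α| + t with hX
  have hXnn : 0 ≤ X := by positivity
  have hsub : ((Finset.Icc (-(M : ℤ)) M).filter fun μ : ℤ => ∃ j : ℤ, |α * μ - j| < t) ⊆
      (Finset.Icc ⌈-X⌉ ⌊X⌋).biUnion fun j =>
        Finset.Icc ⌈(j : ℝ) / α - t / |α|⌉ ⌊(j : ℝ) / α + t / |α|⌋ := by
    intro μ hμ
    rw [Finset.mem_filter, Finset.mem_Icc] at hμ
    obtain ⟨⟨hm1, hm2⟩, j, hj⟩ := hμ
    rw [Finset.mem_biUnion]
    have hμM : |(μ : ℝ)| ≤ M := by
      rw [abs_le]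
      constructor
      · have : ((-(M : ℤ) : ℤ) : ℝ) ≤ (μ : ℝ) := by exact_mod_cast hm1
        push_cast at this
        exact this
      · exact_mod_cast hm2
    refine ⟨j, ?_, ?_⟩
    · rw [Finset.mem_Icc, Int.ceil_le, Int.le_floor, ← abs_le]
      have h1 : |(j : ℝ)| ≤ |α * μ| + |α * μ - j| := by
        have h2 : (j : ℝ) = α * μ - (α * μ - j) := by ring
        calc |(j : ℝ)| = |α * μ - (α * μ - j)| := by rw [← h2]
          _ ≤ |α * μ| + |α * μ - j| := abs_sub _ _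
      rw [abs_mul] at h1
      have h3 : |α| * |(μ : ℝ)| ≤ M * |α| := by
        rw [mul_comm]; exact mul_le_mul_of_nonneg_right hμM hα.le
      rw [hX]
      linarith
    · rw [Finset.mem_Icc, Int.ceil_le, Int.le_floor]
      have h4 : |(μ : ℝ) - j / α| < t / |α| := by
        have h5 : (μ : ℝ) - j / α = (α * μ - j) / α := by field_simp
        rw [h5, abs_div]
        exact (div_lt_div_iff_of_pos_right hα).mpr hj
      rw [abs_lt] at h4
      constructor <;> linarith [h4.1, h4.2]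
  calc (((Finset.Icc (-(M : ℤ)) M).filter fun μ : ℤ => ∃ j : ℤ, |α * μ - j| < t).card : ℝ)
      ≤ (((Finset.Icc ⌈-X⌉ ⌊X⌋).biUnion fun j =>
        Finset.Icc ⌈(j : ℝ) / α - t / |α|⌉ ⌊(j : ℝ) / α + t / |α|⌋).card : ℝ) := by
        exact_mod_cast Finset.card_le_card hsub
    _ ≤ ∑ j ∈ Finset.Icc ⌈-X⌉ ⌊X⌋,
        ((Finset.Icc ⌈(j : ℝ) / α - t / |α|⌉ ⌊(j : ℝ) / α + t / |α|⌋).card : ℝ) := by
        exact_mod_cast Finset.card_biUnion_le
    _ ≤ ∑ j ∈ Finset.Icc ⌈-X⌉ ⌊X⌋, (2 * t / |α| + 1) := by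
        refine Finset.sum_le_sum fun j _ => ?_
        have hta : 0 < t / |α| := by positivity
        refine (wbd_card_int _ _ (by linarith)).trans ?_
        have : (j : ℝ) / α + t / |α| - ((j : ℝ) / α - t / |α|) + 1 = 2 * t / |α| + 1 := by ring
        rw [this]
    _ = ((Finset.Icc ⌈-X⌉ ⌊X⌋).card : ℝ) * (2 * t / |α| + 1) := by
        rw [Finset.sum_const, nsmul_eq_mul]
    _ ≤ (2 * M * |α| + 2) * (2 * t / |α| + 1) := by
        refine mul_le_mul_of_nonneg_right ?_ (by positivity)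
        refine (wbd_card_int _ _ (by linarith)).trans ?_
        rw [hX]
        linarith

theorem W_le {α : ℝ} (h0 : α ≠ 0) (h1 : |α| ≤ 1) {M : ℕ} (hM : 1 ≤ M) :
    W α M ≤ 15 * (M : ℝ) ^ 2 * (√|α| + 1 / (M * √|α|)) := by
  classical
  have hα : 0 < |α| := abs_pos.mpr h0
  have hM1 : (1 : ℝ) ≤ M := by exact_mod_cast hM
  set r : ℝ := √|α| with hr
  have hr0 : 0 < r := Real.sqrt_pos.mpr hα
  have hr2 : r * r = |α| := Real.mul_self_sqrt hα.le
  have hr1 : r ≤ 1 := by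
    rw [hr, Real.sqrt_le_one]
    exact h1
  have ht0 : 0 < r / 2 := by positivity
  have ht2 : r / 2 ≤ 1 / 2 := by linarith
  set B := (Finset.Icc (-(M : ℤ)) M).filter fun μ : ℤ => ∃ j : ℤ, |α * μ - j| < r / 2 with hB
  have hbad := wbd_bad h0 ht0 ht2 M
  rw [← hB] at hbad
  unfold W
  rw [← Finset.sum_filter_add_sum_filter_not (Finset.Icc (-(M : ℤ)) M)
    (fun μ : ℤ => ∃ j : ℤ, |α * μ - j| < r / 2), ← hB]
  have hs1 : ∑ μ ∈ B, ‖∑ l ∈ Finset.Icc (-(M : ℤ)) M, e (α * l * μ)‖ ≤ B.card * (3 * (M : ℝ)) := by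
    calc ∑ μ ∈ B, ‖∑ l ∈ Finset.Icc (-(M : ℤ)) M, e (α * l * μ)‖
        ≤ ∑ μ ∈ B, 3 * (M : ℝ) :=
          Finset.sum_le_sum fun μ _ => wbd_inner_le (fun l => α * l * μ) hM
      _ = B.card * (3 * (M : ℝ)) := by rw [Finset.sum_const, nsmul_eq_mul]
  have hs2 : ∑ μ ∈ (Finset.Icc (-(M : ℤ)) M).filter fun μ : ℤ => ¬ ∃ j : ℤ, |α * μ - j| < r / 2,
      ‖∑ l ∈ Finset.Icc (-(M : ℤ)) M, e (α * l * μ)‖ ≤ 3 * M * (1 / r) := by
    calc ∑ μ ∈ (Finset.Icc (-(M : ℤ)) M).filter fun μ : ℤ => ¬ ∃ j : ℤ, |α * μ - j| < r / 2,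
        ‖∑ l ∈ Finset.Icc (-(M : ℤ)) M, e (α * l * μ)‖
        ≤ ∑ μ ∈ (Finset.Icc (-(M : ℤ)) M).filter fun μ : ℤ => ¬ ∃ j : ℤ, |α * μ - j| < r / 2,
          1 / r := by
          refine Finset.sum_le_sum fun μ hμ => ?_
          rw [Finset.mem_filter] at hμ
          have h3 : ∀ j : ℤ, r / 2 ≤ |α * μ - j| := by
            intro j
            by_contra h4
            exact hμ.2 ⟨j, not_le.mp h4⟩
          have h5 := geom (α * μ) (r / 2) ht0 h3 M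
          have h6 : 1 / (2 * (r / 2)) = 1 / r := by congr 1; ring
          rw [h6] at h5
          have h7 : ∀ l : ℤ, α * l * μ = α * μ * l := fun l => by ring
          simp only [h7]
          exact h5
      _ = (((Finset.Icc (-(M : ℤ)) M).filter fun μ : ℤ => ¬ ∃ j : ℤ, |α * μ - j| < r / 2).card : ℝ) *
          (1 / r) := by rw [Finset.sum_const, nsmul_eq_mul]
      _ ≤ 3 * M * (1 / r) := by
          refine mul_le_mul_of_nonneg_right ?_ (by positivity)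
          refine le_trans ?_ (wbd_card hM)
          exact_mod_cast Finset.card_filter_le _ _
  have h8 : (2 * (M : ℝ) * |α| + 2) * (2 * (r / 2) / |α| + 1) ≤
      (2 * (M : ℝ) * |α| + 2) * (2 / r) := by
    refine mul_le_mul_of_nonneg_left ?_ (by positivity)
    have h9 : 2 * (r / 2) / |α| = 1 / r := by
      rw [← hr2]; field_simp
    rw [h9]
    have h10 : (1 : ℝ) ≤ 1 / r := by
      rw [le_div_iff₀ hr0]; linarith
    have h11 : 2 / r = 1 / r + 1 / r := by ring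
    rw [h11]
    linarith
  have h12 : (B.card : ℝ) * (3 * (M : ℝ)) ≤ (2 * (M : ℝ) * |α| + 2) * (2 / r) * (3 * (M : ℝ)) := by
    refine mul_le_mul_of_nonneg_right (hbad.trans h8) (by positivity)
  have h13 : (2 * (M : ℝ) * |α| + 2) * (2 / r) * (3 * (M : ℝ)) + 3 * M * (1 / r) =
      12 * (M : ℝ) ^ 2 * r + 15 * M / r := by
    rw [← hr2]
    field_simp
    ring
  have h14 : 15 * (M : ℝ) ^ 2 * (r + 1 / (M * r)) = 15 * (M : ℝ) ^ 2 * r + 15 * M / r := by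
    field_simp
  rw [h14]
  have h15 : 0 ≤ (M : ℝ) ^ 2 * r := by positivity
  linarith

end Pool.Agent.VMV
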