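import Pool.Agent.VMV.BilB
import Pool.Agent.VMV.WBd
import Pool.Agent.VMV.Mvt

/-!
# VMV / Vkey: the bilinear exponential sum estimate

PROOF.  `s = m k^2`, `bil`. `JP k s Y ≤ (64 m k^4)^(m^2 k^4) Y^(2 s - k(k+1)/2 + 2 exp(-m) k^2)` (`mvt_cor`).
`W (α j) (s Y^(j+1)) ≤ 9 s^2 Y^(2(j+1))` (`W_triv`) for all `j`, and for `j ∈ T`, with `l = j + 1`: `|α| ≤ Y^(-l/2) ≤ 1`,
`√|α| ≤ Y^(-l/4)`, `1/(s Y^l √|α|) ≤ Y^(-l) Y^(3l/4)`, so by `W_le`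
`W ≤ 30 s^2 Y^(2l) Y^(-l/4)`. The product over all `j` is at most
`(30 s^2)^k Y^(k(k+1)) Y^(-(1/4) ∑_{j ∈ T} (j+1))` (`∑_j 2 (j+1) = k (k+1)`). Multiply: the exponents of `Y` are
`8 s^2 - 4 s + 4 s - k(k+1) + 4 exp(-m) k^2 + k (k+1) - (1/4) ∑_T`. Take the `4 s^2`-th root:
`Real.rpow` with `(‖Bil‖^(4s^2))^(1/(4s^2)) = ‖Bil‖`, `(Y^(8 s^2))^(1/(4 s^2)) = Y^2`.
-/

set_option autoImplicit false

namespace Pool.Agent.VMV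

/-- The saving in the bilinear estimate. -/
noncomputable def sav (k m Y : ℕ) (S : ℝ) : ℝ :=
  ((64 * m * k ^ 4 : ℝ) ^ (2 * m ^ 2 * k ^ 4) * (30 * m ^ 2 * k ^ 4 : ℝ) ^ k *
    (Y : ℝ) ^ (4 * Real.exp (-m) * k ^ 2 - S / 4)) ^ (1 / (4 * m ^ 2 * k ^ 4) : ℝ)

/-- the bound for `W` in the good coordinates -/
private theorem W_good {a : ℝ} {s Y l : ℕ} (hs : 1 ≤ s) (hY : 1 ≤ Y)
    (h1 : (Y : ℝ) ^ (-(3 * (l : ℝ) / 2)) ≤ |a|) (h2 : |a| ≤ (Y : ℝ) ^ (-((l : ℝ) / 2))) :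
    W a (s * Y ^ l) ≤ 30 * (s : ℝ) ^ 2 * (Y : ℝ) ^ (2 * l) * (Y : ℝ) ^ (-((l : ℝ) / 4)) := by
  have hY1 : (1 : ℝ) ≤ Y := by exact_mod_cast hY
  have hY0 : (0 : ℝ) < Y := by linarith
  have hs1 : (1 : ℝ) ≤ s := by exact_mod_cast hs
  have hs0 : (0 : ℝ) < s := by linarith
  have hapos : 0 < |a| := lt_of_lt_of_le (Real.rpow_pos_of_pos hY0 _) h1
  have ha0 : a ≠ 0 := abs_pos.1 hapos
  have ha1 : |a| ≤ 1 := by
    refine h2.trans (Real.rpow_le_one_of_one_le_of_nonpos hY1 ?_)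
    have : (0 : ℝ) ≤ l := Nat.cast_nonneg l
    linarith
  have hM : 1 ≤ s * Y ^ l := Nat.one_le_iff_ne_zero.2 (by positivity)
  have h := W_le ha0 ha1 hM
  have hsq1 : √|a| ≤ (Y : ℝ) ^ (-((l : ℝ) / 4)) := by
    rw [Real.sqrt_le_left (Real.rpow_nonneg hY0.le _), ← Real.rpow_natCast, ← Real.rpow_mul hY0.le]
    refine h2.trans (le_of_eq ?_)
    congr 1
    push_cast
    ring
  have hsq2 : (Y : ℝ) ^ (-(3 * (l : ℝ) / 4)) ≤ √|a| := by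
    apply Real.le_sqrt_of_sq_le
    rw [← Real.rpow_natCast, ← Real.rpow_mul hY0.le]
    refine le_trans (le_of_eq ?_) h1
    congr 1
    push_cast
    ring
  have hsqpos : 0 < √|a| := Real.sqrt_pos.2 hapos
  have hinv : 1 / (((s * Y ^ l : ℕ) : ℝ) * √|a|) ≤ (Y : ℝ) ^ (-((l : ℝ) / 4)) := by
    rw [div_le_iff₀ (by positivity)]
    push_cast
    have e1 : (1 : ℝ) = (Y : ℝ) ^ (-((l : ℝ) / 4)) * ((Y : ℝ) ^ l * (Y : ℝ) ^ (-(3 * (l : ℝ) / 4))) := by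
      rw [← Real.rpow_natCast (Y : ℝ) l, ← Real.rpow_add hY0, ← Real.rpow_add hY0]
      have : -((l : ℝ) / 4) + ((l : ℝ) + -(3 * (l : ℝ) / 4)) = 0 := by ring
      rw [this, Real.rpow_zero]
    calc (1 : ℝ) = (Y : ℝ) ^ (-((l : ℝ) / 4)) * ((Y : ℝ) ^ l * (Y : ℝ) ^ (-(3 * (l : ℝ) / 4))) := e1
      _ ≤ (Y : ℝ) ^ (-((l : ℝ) / 4)) * ((s : ℝ) * (Y : ℝ) ^ l * √|a|) := by
        apply mul_le_mul_of_nonneg_left _ (Real.rpow_nonneg hY0.le _)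
        apply mul_le_mul _ hsq2 (Real.rpow_nonneg hY0.le _) (by positivity)
        have : (0 : ℝ) ≤ (Y : ℝ) ^ l := by positivity
        nlinarith
  calc W a (s * Y ^ l) ≤ 15 * ((s * Y ^ l : ℕ) : ℝ) ^ 2 *
        (√|a| + 1 / (((s * Y ^ l : ℕ) : ℝ) * √|a|)) := h
    _ ≤ 15 * ((s * Y ^ l : ℕ) : ℝ) ^ 2 * ((Y : ℝ) ^ (-((l : ℝ) / 4)) + (Y : ℝ) ^ (-((l : ℝ) / 4))) := by
        gcongr
    _ = 30 * (s : ℝ) ^ 2 * (Y : ℝ) ^ (2 * l) * (Y : ℝ) ^ (-((l : ℝ) / 4)) := by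
        push_cast
        ring

private theorem vkW_nonneg (a : ℝ) (M : ℕ) : 0 ≤ W a M :=
  Finset.sum_nonneg fun _ _ => norm_nonneg _

private theorem two_sum (k : ℕ) : 2 * ∑ i ∈ Finset.range k, (i + 1) = k * (k + 1) := by
  induction k with
  | zero => rfl
  | succ k ih =>
    rw [Finset.sum_range_succ, mul_add, ih]
    ring

open Classical in
/-- the product of the bounds -/
private theorem prod_W {k s Y : ℕ} (hs : 1 ≤ s) (hY : 1 ≤ Y) (α : Fin k → ℝ) (T : Finset (Fin k))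
    (hT : ∀ j ∈ T, (Y : ℝ) ^ (-(3 * ((j.1 : ℝ) + 1) / 2)) ≤ |α j| ∧
      |α j| ≤ (Y : ℝ) ^ (-(((j.1 : ℝ) + 1) / 2))) :
    ∏ j, W (α j) (s * Y ^ (j.1 + 1)) ≤
      (30 * (s : ℝ) ^ 2) ^ k * (Y : ℝ) ^ (k * (k + 1)) *
        (Y : ℝ) ^ (-(∑ j ∈ T, ((j.1 : ℝ) + 1)) / 4) := by
  have hY1 : (1 : ℝ) ≤ Y := by exact_mod_cast hY
  have hY0 : (0 : ℝ) < Y := by linarith
  have hs1 : (1 : ℝ) ≤ s := by exact_mod_cast hs
  have h1 : ∀ j : Fin k, W (α j) (s * Y ^ (j.1 + 1)) ≤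
      30 * (s : ℝ) ^ 2 * (Y : ℝ) ^ (2 * (j.1 + 1)) *
        (if j ∈ T then (Y : ℝ) ^ (-(((j.1 : ℝ) + 1) / 4)) else 1) := by
    intro j
    split_ifs with hj
    · obtain ⟨h2, h3⟩ := hT j hj
      have h4 := W_good (a := α j) (s := s) (Y := Y) (l := j.1 + 1) hs hY
        (by push_cast; exact h2) (by push_cast; exact h3)
      push_cast at h4
      exact h4
    · have hM : 1 ≤ s * Y ^ (j.1 + 1) := Nat.one_le_iff_ne_zero.2 (by positivity)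
      refine (W_triv (α j) hM).trans ?_
      push_cast
      have : (0 : ℝ) ≤ (s : ℝ) ^ 2 * (Y : ℝ) ^ (2 * (j.1 + 1)) := by positivity
      calc 9 * ((s : ℝ) * (Y : ℝ) ^ (j.1 + 1)) ^ 2 = 9 * ((s : ℝ) ^ 2 * (Y : ℝ) ^ (2 * (j.1 + 1))) := by ring
        _ ≤ 30 * ((s : ℝ) ^ 2 * (Y : ℝ) ^ (2 * (j.1 + 1))) := by linarith
        _ = 30 * (s : ℝ) ^ 2 * (Y : ℝ) ^ (2 * (j.1 + 1)) * 1 := by ring
  have h2 := Finset.prod_le_prod (s := Finset.univ) (fun j _ => vkW_nonneg (α j) (s * Y ^ (j.1 + 1)))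
    (fun j _ => h1 j)
  refine h2.trans (le_of_eq ?_)
  rw [Finset.prod_mul_distrib, Finset.prod_mul_distrib, Finset.prod_const, Finset.card_univ,
    Fintype.card_fin]
  congr 1
  · congr 1
    rw [Finset.prod_pow_eq_pow_sum]
    congr 1
    rw [Fin.sum_univ_eq_sum_range (fun i => 2 * (i + 1)) k, ← Finset.mul_sum]
    exact two_sum k
  · rw [Finset.prod_ite_mem]
    rw [Finset.univ_inter]
    rw [← Real.rpow_sum_of_pos hY0]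
    congr 1
    rw [Finset.sum_neg_distrib, neg_div, Finset.sum_div]

theorem vkey {k m Y : ℕ} (hk : 2 ≤ k) (hm : 1 ≤ m) (hY : 1 ≤ Y) (α : Fin k → ℝ)
    (T : Finset (Fin k))
    (hT : ∀ j ∈ T, (Y : ℝ) ^ (-(3 * ((j.1 : ℝ) + 1) / 2)) ≤ |α j| ∧
      |α j| ≤ (Y : ℝ) ^ (-(((j.1 : ℝ) + 1) / 2))) :
    ‖Bil α Y‖ ≤ (Y : ℝ) ^ 2 * sav k m Y (∑ j ∈ T, ((j.1 : ℝ) + 1)) := by
  set S := ∑ j ∈ T, ((j.1 : ℝ) + 1) with hS
  set s := m * k ^ 2 with hs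
  have hs1 : 1 ≤ s := Nat.one_le_iff_ne_zero.2 (by positivity)
  have hY1 : (1 : ℝ) ≤ Y := by exact_mod_cast hY
  have hY0 : (0 : ℝ) < Y := by linarith
  have hk0 : (0 : ℝ) < k := by
    have : (2 : ℝ) ≤ k := by exact_mod_cast hk
    linarith
  have hm0 : (0 : ℝ) < m := by
    have : (1 : ℝ) ≤ m := by exact_mod_cast hm
    linarith
  have h1 := bil α s Y hs1
  have h2 := mvt_cor hk hm Y hY
  have h3 := prod_W hs1 hY α T hT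
  have hsR : (s : ℝ) = m * k ^ 2 := by
    rw [hs]
    push_cast
    ring
  set X : ℝ := (64 * m * k ^ 4 : ℝ) ^ (2 * m ^ 2 * k ^ 4) * (30 * m ^ 2 * k ^ 4 : ℝ) ^ k *
    (Y : ℝ) ^ (4 * Real.exp (-m) * k ^ 2 - S / 4) with hX
  have hX0 : 0 ≤ X := by positivity
  have h4 : ‖Bil α Y‖ ^ (4 * s ^ 2) ≤ (Y : ℝ) ^ (8 * s ^ 2) * X := by
    have hJ : (JP k s Y : ℝ) ^ 2 ≤ ((64 * m * k ^ 4 : ℝ) ^ (m ^ 2 * k ^ 4) *
      (Y : ℝ) ^ (2 * m * k ^ 2 - (k : ℝ) * (k + 1) / 2 + 2 * Real.exp (-m) * k ^ 2)) ^ 2 := by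
      gcongr
    have hW0 : 0 ≤ ∏ j, W (α j) (s * Y ^ (j.1 + 1)) := Finset.prod_nonneg fun j _ => vkW_nonneg _ _
    calc ‖Bil α Y‖ ^ (4 * s ^ 2)
        ≤ (Y : ℝ) ^ (8 * s ^ 2 - 4 * s) * (JP k s Y : ℝ) ^ 2 *
          ∏ j, W (α j) (s * Y ^ (j.1 + 1)) := h1
      _ ≤ (Y : ℝ) ^ (8 * s ^ 2 - 4 * s) * ((64 * m * k ^ 4 : ℝ) ^ (m ^ 2 * k ^ 4) *
          (Y : ℝ) ^ (2 * m * k ^ 2 - (k : ℝ) * (k + 1) / 2 + 2 * Real.exp (-m) * k ^ 2)) ^ 2 *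
          ((30 * (s : ℝ) ^ 2) ^ k * (Y : ℝ) ^ (k * (k + 1)) *
            (Y : ℝ) ^ (-S / 4)) := by
        gcongr
      _ = (Y : ℝ) ^ (8 * s ^ 2) * X := by
        have e1 : (30 * (s : ℝ) ^ 2) = 30 * m ^ 2 * k ^ 4 := by
          rw [hsR]
          ring
        have e2 : ((64 * m * k ^ 4 : ℝ) ^ (m ^ 2 * k ^ 4)) ^ 2 =
            (64 * m * k ^ 4 : ℝ) ^ (2 * m ^ 2 * k ^ 4) := by
          rw [← pow_mul]
          congr 1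
          ring
        have hle : 4 * s ≤ 8 * s ^ 2 := by nlinarith
        have e3 : (Y : ℝ) ^ (8 * s ^ 2 - 4 * s) *
            ((Y : ℝ) ^ (2 * m * k ^ 2 - (k : ℝ) * (k + 1) / 2 + 2 * Real.exp (-m) * k ^ 2)) ^ 2 *
            ((Y : ℝ) ^ (k * (k + 1)) * (Y : ℝ) ^ (-S / 4)) =
            (Y : ℝ) ^ (8 * s ^ 2) * (Y : ℝ) ^ (4 * Real.exp (-m) * k ^ 2 - S / 4) := by
          rw [← Real.rpow_natCast (Y : ℝ) (8 * s ^ 2 - 4 * s), ← Real.rpow_natCast (Y : ℝ) (8 * s ^ 2),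
            ← Real.rpow_natCast (Y : ℝ) (k * (k + 1)), ← Real.rpow_natCast _ 2,
            ← Real.rpow_mul hY0.le, ← Real.rpow_add hY0, ← Real.rpow_add hY0, ← Real.rpow_add hY0,
            ← Real.rpow_add hY0]
          congr 1
          rw [Nat.cast_sub hle]
          push_cast
          rw [hsR]
          ring
        rw [hX, e1, mul_pow ((64 * m * k ^ 4 : ℝ) ^ (m ^ 2 * k ^ 4))
          ((Y : ℝ) ^ (2 * m * k ^ 2 - (k : ℝ) * (k + 1) / 2 + 2 * Real.exp (-m) * k ^ 2)) 2, e2]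
        calc (Y : ℝ) ^ (8 * s ^ 2 - 4 * s) * ((64 * m * k ^ 4 : ℝ) ^ (2 * m ^ 2 * k ^ 4) *
            ((Y : ℝ) ^ (2 * m * k ^ 2 - (k : ℝ) * (k + 1) / 2 + 2 * Real.exp (-m) * k ^ 2)) ^ 2) *
            ((30 * m ^ 2 * k ^ 4 : ℝ) ^ k * (Y : ℝ) ^ (k * (k + 1)) * (Y : ℝ) ^ (-S / 4)) =
            ((64 * m * k ^ 4 : ℝ) ^ (2 * m ^ 2 * k ^ 4) * (30 * m ^ 2 * k ^ 4 : ℝ) ^ k) *
            ((Y : ℝ) ^ (8 * s ^ 2 - 4 * s) *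
            ((Y : ℝ) ^ (2 * m * k ^ 2 - (k : ℝ) * (k + 1) / 2 + 2 * Real.exp (-m) * k ^ 2)) ^ 2 *
            ((Y : ℝ) ^ (k * (k + 1)) * (Y : ℝ) ^ (-S / 4))) := by ring
          _ = _ := by
            rw [e3]
            ring
  have hexp : (1 / (4 * m ^ 2 * k ^ 4) : ℝ) = 1 / ((4 * s ^ 2 : ℕ) : ℝ) := by
    push_cast
    rw [hsR]
    congr 1
    ring
  have hN : ((4 * s ^ 2 : ℕ) : ℝ) ≠ 0 := by
    have : (4 * s ^ 2 : ℕ) ≠ 0 := by positivity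
    exact_mod_cast this
  have h5 : ‖Bil α Y‖ = (‖Bil α Y‖ ^ (4 * s ^ 2)) ^ (1 / ((4 * s ^ 2 : ℕ) : ℝ)) := by
    rw [← Real.rpow_natCast, ← Real.rpow_mul (norm_nonneg _), mul_one_div_cancel hN, Real.rpow_one]
  have h6 : ((Y : ℝ) ^ (8 * s ^ 2)) ^ (1 / ((4 * s ^ 2 : ℕ) : ℝ)) = (Y : ℝ) ^ 2 := by
    have e4 : 8 * s ^ 2 = 2 * (4 * s ^ 2) := by ring
    rw [e4, pow_mul, ← Real.rpow_natCast ((Y : ℝ) ^ 2), ← Real.rpow_mul (by positivity),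
      mul_one_div_cancel hN, Real.rpow_one]
  unfold sav
  rw [← hX, hexp, h5, ← h6, ← Real.mul_rpow (by positivity) hX0]
  apply Real.rpow_le_rpow (by positivity) h4 (by positivity)

end Pool.Agent.VMV
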