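import Pool.Agent.VMV.En

/-!
# VMV / Aff: translations and dilations

PROOFS.  `ps_shift`: `∑ i, (x i - a) ^ (j+1) = ∑_{m ≤ j+1} binom (-a)^(j+1-m) ∑ i, x i ^ m`
(`add_pow`, `Finset.sum_comm`), and the inner power sums are equal for `x` and `y`: `m = 0`: both are
`card ι`; `m ≥ 1`: hypothesis. `ps_dil`: `∑ (p u_i)^(j+1) = p^(j+1) ∑ u_i^(j+1)`.
`J_cls_le`: the elements `u` of `cls p P r` are `u = r' + p t` with `0 ≤ t ≤ P / p`, where `r'` is
the smallest one: precisely, `u ↦ (u - r) / p + 1`, hmm: choose `r0 = r` if `1 ≤ r < p` or `0` if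
`r = 0`; `u = r + p t`, `t = u / p ∈ [0, P / p]`. The map `u ↦ t + 1` sends `cls p P r` injectively
into `[1, P / p + 1]`; a coincidence `ps k u = ps k v` of two tuples gives
`ps k (u - r) = ps k (v - r)` (`ps_shift`), i.e. `p^(j+1) (ps k t j - ps k t' j) = 0`, so
`ps k t = ps k t'`, so `ps k (t + 1) = ps k (t' + 1)` (`ps_shift` with `a = -1`). Use
`en_le_of_injOn`.
`J_mono`: `en_mono`. `ps_add`: the sum over `ι ⊕ κ`.
-/

set_option autoImplicit false

namespace Pool.Agent.VMV

private theorem pow_sum_eq {k : ℕ} {ι : Type*} [Fintype ι] (x y : ι → ℤ) (h : ps k x = ps k y)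
    (m : ℕ) (hm : m ≤ k) : ∑ i, x i ^ m = ∑ i, y i ^ m := by
  rcases m with _ | m
  · simp
  · exact congrFun h ⟨m, hm⟩

theorem ps_shift {k : ℕ} {ι : Type*} [Fintype ι] (a : ℤ) (x y : ι → ℤ) (h : ps k x = ps k y) :
    ps k (fun i => x i - a) = ps k fun i => y i - a := by
  funext j
  have key : ∀ z : ι → ℤ, ps k (fun i => z i - a) j =
      ∑ m ∈ Finset.range (j.1 + 1 + 1), (∑ i, z i ^ m) *
        ((-a) ^ (j.1 + 1 - m) * ((j.1 + 1).choose m : ℤ)) := by
    intro z
    unfold ps
    simp only [sub_eq_add_neg, add_pow]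
    rw [Finset.sum_comm]
    refine Finset.sum_congr rfl fun m _ => ?_
    rw [Finset.sum_mul]
    exact Finset.sum_congr rfl fun i _ => by ring
  rw [key, key]
  refine Finset.sum_congr rfl fun m hm => ?_
  rw [Finset.mem_range] at hm
  rw [pow_sum_eq x y h m (by have := j.2; omega)]

theorem ps_sum {k : ℕ} {ι κ : Type*} [Fintype ι] [Fintype κ] (x : ι → ℤ) (y : κ → ℤ) :
    ps k (Sum.elim x y) = ps k x + ps k y := by
  funext j
  unfold ps
  rw [Fintype.sum_sum_type]
  rfl

/-- Translation invariance of the mixed system. -/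
theorem ps_shift2 {k : ℕ} {ι κ : Type*} [Fintype ι] [Fintype κ] (a : ℤ) (x y : ι → ℤ)
    (u v : κ → ℤ) (h : ps k x + ps k u = ps k y + ps k v) :
    ps k (fun i => x i - a) + ps k (fun i => u i - a) =
      ps k (fun i => y i - a) + ps k fun i => v i - a := by
  rw [← ps_sum, ← ps_sum] at h
  have h1 := ps_shift a _ _ h
  have e : ∀ (x : ι → ℤ) (u : κ → ℤ), (fun i => Sum.elim x u i - a) =
      Sum.elim (fun i => x i - a) fun i => u i - a := by
    intro x u
    funext i
    rcases i with i | i <;> rfl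
  rw [e, e, ps_sum, ps_sum] at h1
  exact h1

private theorem tup_mono {s : ℕ} {A B : Finset ℤ} (h : A ⊆ B) : tup s A ⊆ tup s B :=
  Fintype.piFinset_subset _ _ fun _ => h

theorem J_mono {k s : ℕ} {A B : Finset ℤ} (h : A ⊆ B) : J k s A ≤ J k s B :=
  en_mono (tup_mono h) _

theorem J_cls_le {k s p P : ℕ} (hp : 0 < p) (r : ℤ) : J k s (cls p P r) ≤ JP k s (P / p + 1) := by
  have hp0 : (0 : ℤ) < p := by exact_mod_cast hp
  have hmem : ∀ u : ℤ, u ∈ cls p P r → (1 ≤ u ∧ u ≤ P) ∧ u = r + p * (u / p) := by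
    intro u hu
    unfold cls at hu
    rw [Finset.mem_filter, Finset.mem_Icc] at hu
    refine ⟨hu.1, ?_⟩
    have := Int.emod_add_mul_ediv u p
    rw [hu.2] at this
    exact this.symm
  refine en_le_of_injOn _ _ _ _ (fun x i => x i / p + 1) ?_ ?_ ?_
  · intro x hx
    have hx' := Fintype.mem_piFinset.1 (Finset.mem_coe.1 hx)
    refine Finset.mem_coe.2 (Fintype.mem_piFinset.2 fun i => ?_)
    obtain ⟨⟨h1, h2⟩, -⟩ := hmem _ (hx' i)
    rw [Finset.mem_Icc]
    have h3 : 0 ≤ x i / p := Int.ediv_nonneg (by omega) hp0.le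
    have h4 : x i / p ≤ (P : ℤ) / p := Int.ediv_le_ediv hp0 h2
    push_cast
    constructor
    · omega
    · omega
  · intro x hx y hy hxy
    have hx' := Fintype.mem_piFinset.1 (Finset.mem_coe.1 hx)
    have hy' := Fintype.mem_piFinset.1 (Finset.mem_coe.1 hy)
    funext i
    have h1 : x i / p + 1 = y i / p + 1 := congrFun hxy i
    have h2 : x i / p = y i / p := by omega
    rw [(hmem _ (hx' i)).2, (hmem _ (hy' i)).2, h2]
  · intro x hx y hy hxy
    have hx' := Fintype.mem_piFinset.1 hx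
    have hy' := Fintype.mem_piFinset.1 hy
    have h1 := ps_shift r _ _ hxy
    have ex : (fun i => x i - r) = fun i => (p : ℤ) * (x i / p) := by
      funext i
      have := (hmem _ (hx' i)).2
      omega
    have ey : (fun i => y i - r) = fun i => (p : ℤ) * (y i / p) := by
      funext i
      have := (hmem _ (hy' i)).2
      omega
    rw [ex, ey] at h1
    have h2 : ps k (fun i => x i / (p : ℤ)) = ps k fun i => y i / (p : ℤ) := by
      funext j
      have h3 := congrFun h1 j
      unfold ps at h3 ⊢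
      simp only [mul_pow, ← Finset.mul_sum] at h3
      exact mul_left_cancel₀ (pow_ne_zero _ hp0.ne') h3
    have h4 := ps_shift (-1) _ _ h2
    simpa only [sub_neg_eq_add] using h4

theorem JP_mono {k s P Q : ℕ} (h : P ≤ Q) : JP k s P ≤ JP k s Q :=
  J_mono (Finset.Icc_subset_Icc le_rfl (by exact_mod_cast h))

theorem JP_le (k s P : ℕ) : JP k s P ≤ P ^ (2 * s) := by
  refine (en_le_card_sq _ _).trans (le_of_eq ?_)
  unfold tup
  rw [Fintype.card_piFinset]
  simp only [Finset.prod_const, Finset.card_univ, Fintype.card_fin, Int.card_Icc]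
  have : ((P : ℤ) + 1 - 1).toNat = P := by simp
  rw [this, ← pow_mul, Nat.mul_comm]

end Pool.Agent.VMV
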