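import Pool.Agent.VMV.En
import Pool.Agent.VMV.Aff

/-!
# VMV / BilA: the bilinear sum, first Hölder inequality

`VV α Y l = ∑_{x ≤ Y} e(∑_j α_j x^(j+1) l_j)`.

PROOFS.  `e_add`: `e (s + t) = e s * e t`; `norm_e`: `‖e t‖ = 1`.
`bilA`: `Bil α Y = ∑_{x ∈ [1,Y]} U_x`, `U_x = ∑_y e(∑_j α_j (x y)^(j+1))`;
`‖Bil‖^(2s) ≤ Y^(2s-1) ∑_x ‖U_x‖^(2s)` (power mean, `s ≥ 1`: `inner_le..` or
`pow_sum_div_card_le_sum_pow`), and `‖U_x‖^(2s) = ‖U_x^s‖^2 = ∑_{(y, y')} e(∑_j α_j x^(j+1) (ps y - ps y')_j)`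
over `tup s [1,Y] × tup s [1,Y]` (expand `U_x ^ s` by `Finset.sum_pow'`/`Finset.prod_univ_sum`;
`‖z‖^2 = z * conj z`, `conj (e t) = e (-t)`). Sum over `x`, exchange, take norms.
`count_le`: group the pairs by the value `l = ps y - ps y'`, which lies in `Box k s Y`
(`1 ≤ y_i ≤ Y`, so `s ≤ ps y j ≤ s Y^(j+1)`); the number of pairs with a given value is at most
`J k s [1,Y]` (`cr_shift_le`).
-/

set_option autoImplicit false

namespace Pool.Agent.VMV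

theorem e_add (s t : ℝ) : e (s + t) = e s * e t := by
  unfold e
  rw [← Complex.exp_add]
  congr 1
  push_cast
  ring

theorem norm_e (t : ℝ) : ‖e t‖ = 1 := by
  unfold e
  have : 2 * (Real.pi : ℂ) * Complex.I * t = ((2 * Real.pi * t : ℝ) : ℂ) * Complex.I := by
    push_cast
    ring
  rw [this, Complex.norm_exp_ofReal_mul_I]

theorem conj_e (t : ℝ) : (starRingEnd ℂ) (e t) = e (-t) := by
  unfold e
  rw [← Complex.exp_conj]
  congr 1
  rw [map_mul, map_mul, map_mul, Complex.conj_I, Complex.conj_ofReal, Complex.conj_ofReal,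
    map_ofNat]
  push_cast
  ring

theorem e_sum {κ : Type*} (S : Finset κ) (f : κ → ℝ) : e (∑ j ∈ S, f j) = ∏ j ∈ S, e (f j) := by
  unfold e
  rw [← Complex.exp_sum]
  congr 1
  push_cast
  rw [Finset.mul_sum]

noncomputable def VV {k : ℕ} (α : Fin k → ℝ) (Y : ℕ) (l : Fin k → ℤ) : ℂ :=
  ∑ x ∈ Finset.Icc 1 Y, e (∑ j, α j * (x : ℝ) ^ (j.1 + 1) * l j)

/-- The box of the possible values of `ps y - ps y'`. -/
noncomputable def Box (k s Y : ℕ) : Finset (Fin k → ℤ) :=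
  Fintype.piFinset fun j => Finset.Icc (-((s * Y ^ (j.1 + 1) : ℕ) : ℤ)) ((s * Y ^ (j.1 + 1) : ℕ) : ℤ)

/-- The pairs of `s`-tuples in `[1, Y]`. -/
noncomputable def prs (s Y : ℕ) : Finset ((Fin s → ℤ) × (Fin s → ℤ)) :=
  tup s (Finset.Icc 1 (Y : ℤ)) ×ˢ tup s (Finset.Icc 1 (Y : ℤ))

theorem card_prs (s Y : ℕ) : (prs s Y).card = Y ^ (2 * s) := by
  unfold prs tup
  rw [Finset.card_product, Fintype.card_piFinset]
  simp only [Int.card_Icc, Finset.prod_const, Finset.card_univ, Fintype.card_fin]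
  have : ((Y : ℤ) + 1 - 1).toNat = Y := by simp
  rw [this, ← pow_add, two_mul]

/-- Expansion of the even powers of the absolute value of an exponential sum. -/
theorem pow_expand {k : ℕ} (a : Fin k → ℝ) (s Y : ℕ) :
    ((‖∑ y ∈ Finset.Icc 1 Y, e (∑ j, a j * (y : ℝ) ^ (j.1 + 1))‖ ^ (2 * s) : ℝ) : ℂ) =
      ∑ q ∈ prs s Y, e (∑ j, a j * ((ps k q.1 - ps k q.2) j : ℤ)) := by
  obtain ⟨U, hU⟩ : ∃ U : ℂ, U = ∑ y ∈ Finset.Icc 1 Y, e (∑ j, a j * (y : ℝ) ^ (j.1 + 1)) :=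
    ⟨_, rfl⟩
  have hUz : U = ∑ y ∈ Finset.Icc (1 : ℤ) Y, e (∑ j, a j * (y : ℝ) ^ (j.1 + 1)) := by
    rw [hU]
    refine Finset.sum_bij (fun y _ => (y : ℤ)) (fun y hy => ?_) (fun y _ y' _ h => by
      exact_mod_cast h) (fun y hy => ?_) (fun y _ => ?_)
    · rw [Finset.mem_Icc] at hy ⊢
      exact ⟨by exact_mod_cast hy.1, by exact_mod_cast hy.2⟩
    · rw [Finset.mem_Icc] at hy
      refine ⟨y.toNat, ?_, ?_⟩
      · rw [Finset.mem_Icc]
        omega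
      · have := hy.1
        omega
    · simp
  have hpow : U ^ s = ∑ x ∈ tup s (Finset.Icc 1 (Y : ℤ)), e (∑ j, a j * (ps k x j : ℤ)) := by
    have h1 : U ^ s = ∏ _i : Fin s, U := by rw [Finset.prod_const, Finset.card_univ,
      Fintype.card_fin]
    rw [h1]
    simp_rw [hUz]
    rw [Finset.prod_univ_sum]
    unfold tup
    refine Finset.sum_congr rfl fun x _ => ?_
    rw [← e_sum]
    congr 1
    rw [Finset.sum_comm]
    refine Finset.sum_congr rfl fun j _ => ?_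
    rw [← Finset.mul_sum]
    unfold ps
    push_cast
    rfl
  have h2 : ((‖U‖ ^ (2 * s) : ℝ) : ℂ) = U ^ s * (starRingEnd ℂ) (U ^ s) := by
    rw [Complex.mul_conj, Complex.normSq_eq_norm_sq, norm_pow, ← pow_mul, mul_comm s 2]
  rw [← hU, h2, hpow, map_sum, Finset.sum_mul_sum]
  unfold prs
  rw [Finset.sum_product]
  refine Finset.sum_congr rfl fun x _ => Finset.sum_congr rfl fun x' _ => ?_
  rw [conj_e, ← e_add]
  congr 1
  rw [← Finset.sum_neg_distrib, ← Finset.sum_add_distrib]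
  refine Finset.sum_congr rfl fun j _ => ?_
  rw [Pi.sub_apply]
  push_cast
  ring

/-- The power mean inequality. -/
theorem pow_mean {κ : Type*} (S : Finset κ) (f : κ → ℝ) (hf : ∀ x ∈ S, 0 ≤ f x) (n : ℕ)
    (hn : 1 ≤ n) : (∑ x ∈ S, f x) ^ n ≤ (S.card : ℝ) ^ (n - 1) * ∑ x ∈ S, f x ^ n := by
  obtain ⟨m, rfl⟩ : ∃ m, n = m + 1 := ⟨n - 1, by omega⟩
  rcases S.eq_empty_or_nonempty with rfl | hS
  · simp
  · have hc : (0 : ℝ) < S.card := by exact_mod_cast hS.card_pos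
    have h1 := inner_le_aux S f hf m
    exact h1
where
  inner_le_aux (S : Finset κ) (f : κ → ℝ) (hf : ∀ x ∈ S, 0 ≤ f x) (m : ℕ) :
    (∑ x ∈ S, f x) ^ (m + 1) ≤ (S.card : ℝ) ^ (m + 1 - 1) * ∑ x ∈ S, f x ^ (m + 1) := by
    rcases S.eq_empty_or_nonempty with rfl | hS
    · simp
    · have hc : (0 : ℝ) < (S.card : ℝ) ^ m := by
        have : (0 : ℝ) < S.card := by exact_mod_cast hS.card_pos
        positivity
      have h1 := pow_sum_div_card_le_sum_pow (s := S) (f := f) hf m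
      rw [div_le_iff₀ hc] at h1
      rw [Nat.add_sub_cancel, mul_comm]
      exact h1

theorem bilA {k : ℕ} (α : Fin k → ℝ) (s Y : ℕ) (hs : 1 ≤ s) :
    ‖Bil α Y‖ ^ (2 * s) ≤ (Y : ℝ) ^ (2 * s - 1) * ∑ q ∈ prs s Y, ‖VV α Y (ps k q.1 - ps k q.2)‖ := by
  obtain ⟨U, hU⟩ : ∃ U : ℕ → ℂ, U = fun x : ℕ => ∑ y ∈ Finset.Icc 1 Y,
      e (∑ l, α l * ((x : ℝ) * y) ^ (l.1 + 1)) := ⟨_, rfl⟩
  have hB : Bil α Y = ∑ x ∈ Finset.Icc 1 Y, U x := by
    rw [hU]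
    rfl
  have h1 : ‖Bil α Y‖ ≤ ∑ x ∈ Finset.Icc 1 Y, ‖U x‖ := by
    rw [hB]
    exact norm_sum_le _ _
  have h2 := pow_mean (Finset.Icc 1 Y) (fun x => ‖U x‖) (fun x _ => norm_nonneg _) (2 * s)
    (by omega)
  rw [Nat.card_Icc, Nat.add_sub_cancel] at h2
  refine (pow_le_pow_left₀ (norm_nonneg _) h1 _).trans (h2.trans ?_)
  refine mul_le_mul_of_nonneg_left ?_ (by positivity)
  have h3 : ((∑ x ∈ Finset.Icc 1 Y, ‖U x‖ ^ (2 * s) : ℝ) : ℂ) =
      ∑ q ∈ prs s Y, VV α Y (ps k q.1 - ps k q.2) := by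
    push_cast
    have h4 : ∀ x ∈ Finset.Icc 1 Y, (‖U x‖ : ℂ) ^ (2 * s) = ∑ q ∈ prs s Y,
        e (∑ j, α j * (x : ℝ) ^ (j.1 + 1) * ((ps k q.1 - ps k q.2) j : ℤ)) := by
      intro x _
      have h5 := pow_expand (fun j => α j * (x : ℝ) ^ (j.1 + 1)) s Y
      have h6 : U x = ∑ y ∈ Finset.Icc 1 Y, e (∑ j, α j * (x : ℝ) ^ (j.1 + 1) *
          (y : ℝ) ^ (j.1 + 1)) := by
        rw [hU]
        refine Finset.sum_congr rfl fun y _ => ?_
        congr 1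
        refine Finset.sum_congr rfl fun j _ => ?_
        rw [mul_pow]
        ring
      rw [← h5, h6]
      push_cast
      rfl
    rw [Finset.sum_congr rfl h4, Finset.sum_comm]
    rfl
  have h6 : ∑ x ∈ Finset.Icc 1 Y, ‖U x‖ ^ (2 * s) =
      ‖∑ q ∈ prs s Y, VV α Y (ps k q.1 - ps k q.2)‖ := by
    rw [← h3, Complex.norm_real, Real.norm_eq_abs, abs_of_nonneg]
    exact Finset.sum_nonneg fun x _ => by positivity
  rw [h6]
  exact norm_sum_le _ _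

theorem ps_mem_box {k : ℕ} (s Y : ℕ) (q : (Fin s → ℤ) × (Fin s → ℤ)) (hq : q ∈ prs s Y) :
    ps k q.1 - ps k q.2 ∈ Box k s Y := by
  unfold prs tup at hq
  rw [Finset.mem_product, Fintype.mem_piFinset, Fintype.mem_piFinset] at hq
  obtain ⟨h1, h2⟩ := hq
  have hb : ∀ x : Fin s → ℤ, (∀ i, x i ∈ Finset.Icc 1 (Y : ℤ)) → ∀ j : Fin k,
      0 ≤ ps k x j ∧ ps k x j ≤ ((s * Y ^ (j.1 + 1) : ℕ) : ℤ) := by
    intro x hx j
    unfold ps
    have h3 : ∀ i, 0 ≤ x i ^ (j.1 + 1) ∧ x i ^ (j.1 + 1) ≤ (Y : ℤ) ^ (j.1 + 1) := by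
      intro i
      have h4 := Finset.mem_Icc.1 (hx i)
      have h5 : 0 ≤ x i := by omega
      exact ⟨by positivity, pow_le_pow_left₀ h5 h4.2 _⟩
    refine ⟨Finset.sum_nonneg fun i _ => (h3 i).1, ?_⟩
    calc ∑ i, x i ^ (j.1 + 1) ≤ ∑ _i : Fin s, (Y : ℤ) ^ (j.1 + 1) :=
          Finset.sum_le_sum fun i _ => (h3 i).2
      _ = _ := by
        rw [Finset.sum_const, Finset.card_univ, Fintype.card_fin, nsmul_eq_mul]
        push_cast
        ring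
  unfold Box
  rw [Fintype.mem_piFinset]
  intro j
  rw [Finset.mem_Icc, Pi.sub_apply]
  obtain ⟨a1, a2⟩ := hb q.1 h1 j
  obtain ⟨b1, b2⟩ := hb q.2 h2 j
  constructor <;> linarith

theorem count_le {k : ℕ} (s Y : ℕ) (g : (Fin k → ℤ) → ℝ) (hg : ∀ l, 0 ≤ g l) :
    ∑ q ∈ prs s Y, g (ps k q.1 - ps k q.2) ≤ JP k s Y * ∑ l ∈ Box k s Y, g l := by
  classical
  rw [← Finset.sum_fiberwise_of_maps_to (g := fun q : (Fin s → ℤ) × (Fin s → ℤ) =>
    ps k q.1 - ps k q.2) (fun q hq => ps_mem_box s Y q hq), Finset.mul_sum]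
  refine Finset.sum_le_sum fun l _ => ?_
  have h1 : ∑ q ∈ (prs s Y).filter (fun q => ps k q.1 - ps k q.2 = l), g (ps k q.1 - ps k q.2) =
      ((prs s Y).filter (fun q => ps k q.1 - ps k q.2 = l)).card * g l := by
    rw [Finset.sum_congr rfl (g := fun _ => g l) (fun q hq => by
      rw [(Finset.mem_filter.1 hq).2]), Finset.sum_const, nsmul_eq_mul]
  rw [h1]
  refine mul_le_mul_of_nonneg_right ?_ (hg l)
  have h2 := cr_shift_le (tup s (Finset.Icc 1 (Y : ℤ))) (ps k) l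
  have h3 : ((prs s Y).filter (fun q => ps k q.1 - ps k q.2 = l)).card ≤
      Cr (tup s (Finset.Icc 1 (Y : ℤ))) (tup s (Finset.Icc 1 (Y : ℤ))) (ps k)
        (fun y => ps k y + l) := by
    unfold Cr prs
    refine Finset.card_le_card fun q hq => ?_
    simp only [Finset.mem_filter] at hq ⊢
    refine ⟨hq.1, ?_⟩
    rw [← hq.2]
    abel
  exact_mod_cast h3.trans h2

end Pool.Agent.VMV
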