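import Pool.Agent.VMV.BilA

/-!
# VMV / BilB: the bilinear sum, second Hölder inequality

PROOFS.  `box_sum`: `‖VV α Y l‖^(2s) = ∑_{q ∈ prs s Y} e(∑_j α_j l_j (ps q.1 - ps q.2)_j)` (expand as in
`bilA`). Sum over `l ∈ Box` and exchange: `≤ ∑_q ‖∑_{l ∈ Box} e(∑_j α_j l_j μ_j)‖`, `μ = ps q.1 - ps q.2`, and
the inner sum is the product over `j` of `∑_{l_j} e(α_j l_j μ_j)` (`Finset.prod_univ_sum`, `e` of a sum is
the product). By `count_le` with `g μ = ∏_j ‖∑_{l_j} e(α_j l_j μ_j)‖` this is at most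
`JP k s Y * ∑_{μ ∈ Box} g μ = JP k s Y * ∏_j W (α_j) (s Y^(j+1))`.
`bil`: with `T = ‖Bil α Y‖`, `X = ∑_{q} ‖VV (..)‖`: `T^(2s) ≤ Y^(2s-1) X`, so
`T^(4 s^2) ≤ Y^((2s-1) 2s) X^(2s)`, `X^(2s) ≤ (Y^(2s))^(2s-1) ∑_q ‖VV(..)‖^(2s)` (power mean, `card_prs`)
`≤ Y^(2s(2s-1)) JP k s Y ∑_{l ∈ Box} ‖VV α Y l‖^(2s)` (`count_le`), and `box_sum`.
`(2s-1) 2s + 2s (2s-1) = 8 s^2 - 4 s`.
-/

set_option autoImplicit false

namespace Pool.Agent.VMV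

/-- The product of the geometric sums. -/
noncomputable def gg {k : ℕ} (α : Fin k → ℝ) (s Y : ℕ) (μ : Fin k → ℤ) : ℝ :=
  ∏ j, ‖∑ l ∈ Finset.Icc (-((s * Y ^ (j.1 + 1) : ℕ) : ℤ)) ((s * Y ^ (j.1 + 1) : ℕ) : ℤ),
    e (α j * l * μ j)‖

theorem gg_nonneg {k : ℕ} (α : Fin k → ℝ) (s Y : ℕ) (μ : Fin k → ℤ) : 0 ≤ gg α s Y μ := by
  unfold gg
  exact Finset.prod_nonneg fun _ _ => norm_nonneg _

theorem gg_eq {k : ℕ} (α : Fin k → ℝ) (s Y : ℕ) (μ : Fin k → ℤ) :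
    ‖∑ l ∈ Box k s Y, e (∑ j, α j * l j * μ j)‖ = gg α s Y μ := by
  have h1 : ∑ l ∈ Box k s Y, e (∑ j, α j * l j * μ j) =
      ∏ j, ∑ l ∈ Finset.Icc (-((s * Y ^ (j.1 + 1) : ℕ) : ℤ)) ((s * Y ^ (j.1 + 1) : ℕ) : ℤ),
        e (α j * l * μ j) := by
    rw [Finset.prod_univ_sum]
    unfold Box
    refine Finset.sum_congr rfl fun l _ => ?_
    exact e_sum _ _
  rw [h1, norm_prod]
  rfl

theorem gg_sum {k : ℕ} (α : Fin k → ℝ) (s Y : ℕ) :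
    ∑ μ ∈ Box k s Y, gg α s Y μ = ∏ j, W (α j) (s * Y ^ (j.1 + 1)) := by
  unfold W gg Box
  rw [Finset.prod_univ_sum]

theorem box_sum {k : ℕ} (α : Fin k → ℝ) (s Y : ℕ) :
    ∑ l ∈ Box k s Y, ‖VV α Y l‖ ^ (2 * s) ≤ JP k s Y * ∏ j, W (α j) (s * Y ^ (j.1 + 1)) := by
  have h1 : ∀ l : Fin k → ℤ, ((‖VV α Y l‖ ^ (2 * s) : ℝ) : ℂ) = ∑ q ∈ prs s Y,
      e (∑ j, α j * l j * ((ps k q.1 - ps k q.2) j : ℤ)) := by
    intro l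
    have h2 := pow_expand (fun j => α j * (l j : ℝ)) s Y
    have h3 : VV α Y l = ∑ y ∈ Finset.Icc 1 Y, e (∑ j, α j * (l j : ℝ) * (y : ℝ) ^ (j.1 + 1)) := by
      unfold VV
      refine Finset.sum_congr rfl fun y _ => ?_
      congr 1
      refine Finset.sum_congr rfl fun j _ => ?_
      ring
    rw [h3, h2]
  have h4 : ((∑ l ∈ Box k s Y, ‖VV α Y l‖ ^ (2 * s) : ℝ) : ℂ) = ∑ q ∈ prs s Y,
      ∑ l ∈ Box k s Y, e (∑ j, α j * l j * ((ps k q.1 - ps k q.2) j : ℤ)) := by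
    rw [Complex.ofReal_sum, Finset.sum_congr rfl fun l _ => h1 l, Finset.sum_comm]
  have h5 : ∑ l ∈ Box k s Y, ‖VV α Y l‖ ^ (2 * s) = ‖∑ q ∈ prs s Y,
      ∑ l ∈ Box k s Y, e (∑ j, α j * l j * ((ps k q.1 - ps k q.2) j : ℤ))‖ := by
    rw [← h4, Complex.norm_real, Real.norm_eq_abs, abs_of_nonneg]
    exact Finset.sum_nonneg fun l _ => by positivity
  rw [h5]
  refine (norm_sum_le _ _).trans ?_
  rw [← gg_sum]
  refine le_trans (le_of_eq ?_) (count_le s Y (gg α s Y) (gg_nonneg α s Y))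
  refine Finset.sum_congr rfl fun q _ => ?_
  exact gg_eq α s Y _

theorem bil {k : ℕ} (α : Fin k → ℝ) (s Y : ℕ) (hs : 1 ≤ s) :
    ‖Bil α Y‖ ^ (4 * s ^ 2) ≤
      (Y : ℝ) ^ (8 * s ^ 2 - 4 * s) * (JP k s Y : ℝ) ^ 2 * ∏ j, W (α j) (s * Y ^ (j.1 + 1)) := by
  obtain ⟨X, hX⟩ : ∃ X : ℝ, X = ∑ q ∈ prs s Y, ‖VV α Y (ps k q.1 - ps k q.2)‖ := ⟨_, rfl⟩
  have hX0 : 0 ≤ X := by
    rw [hX]
    exact Finset.sum_nonneg fun _ _ => norm_nonneg _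
  have h1 : ‖Bil α Y‖ ^ (2 * s) ≤ (Y : ℝ) ^ (2 * s - 1) * X := by
    rw [hX]
    exact bilA α s Y hs
  have h2 : X ^ (2 * s) ≤ ((Y : ℝ) ^ (2 * s)) ^ (2 * s - 1) *
      ∑ q ∈ prs s Y, ‖VV α Y (ps k q.1 - ps k q.2)‖ ^ (2 * s) := by
    have h3 := pow_mean (prs s Y) (fun q => ‖VV α Y (ps k q.1 - ps k q.2)‖)
      (fun q _ => norm_nonneg _) (2 * s) (by omega)
    rw [card_prs] at h3
    push_cast at h3
    rw [hX]
    exact h3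
  have h4 : ∑ q ∈ prs s Y, ‖VV α Y (ps k q.1 - ps k q.2)‖ ^ (2 * s) ≤
      JP k s Y * (JP k s Y * ∏ j, W (α j) (s * Y ^ (j.1 + 1))) :=
    (count_le s Y (fun l => ‖VV α Y l‖ ^ (2 * s)) fun l => by positivity).trans
      (mul_le_mul_of_nonneg_left (box_sum α s Y) (by positivity))
  calc ‖Bil α Y‖ ^ (4 * s ^ 2) = (‖Bil α Y‖ ^ (2 * s)) ^ (2 * s) := by
        rw [← pow_mul]
        congr 1
        ring
    _ ≤ ((Y : ℝ) ^ (2 * s - 1) * X) ^ (2 * s) := pow_le_pow_left₀ (by positivity) h1 _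
    _ = ((Y : ℝ) ^ (2 * s - 1)) ^ (2 * s) * X ^ (2 * s) := mul_pow _ _ _
    _ ≤ ((Y : ℝ) ^ (2 * s - 1)) ^ (2 * s) * (((Y : ℝ) ^ (2 * s)) ^ (2 * s - 1) *
        (JP k s Y * (JP k s Y * ∏ j, W (α j) (s * Y ^ (j.1 + 1))))) := by
        refine mul_le_mul_of_nonneg_left (h2.trans ?_) (by positivity)
        exact mul_le_mul_of_nonneg_left h4 (by positivity)
    _ = _ := by
        have h5 : ((Y : ℝ) ^ (2 * s - 1)) ^ (2 * s) * ((Y : ℝ) ^ (2 * s)) ^ (2 * s - 1) =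
            (Y : ℝ) ^ (8 * s ^ 2 - 4 * s) := by
          rw [← pow_mul, ← pow_mul, ← pow_add]
          congr 1
          obtain ⟨t, rfl⟩ : ∃ t, s = t + 1 := ⟨s - 1, by omega⟩
          have e1 : 2 * (t + 1) - 1 = 2 * t + 1 := by omega
          have e2 : 8 * (t + 1) ^ 2 - 4 * (t + 1) = 8 * t ^ 2 + 12 * t + 4 := by
            have : 8 * (t + 1) ^ 2 = 8 * t ^ 2 + 12 * t + 4 + 4 * (t + 1) := by ring
            omega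
          rw [e1, e2]
          ring
        rw [← h5]
        ring

end Pool.Agent.VMV
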