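import Mathlib

/-!
# VMV / Defs: Vinogradov's mean value theorem, definitions

The library `VMV`: `Mvt.lean` (`mvt`, `mvt_cor`: the mean value theorem with explicit constants,
uniformly in the degree `k`), `BilB.lean` (`bil`) and `Vkey.lean` (`vkey`): the estimate of the bilinear
exponential sum `∑_{x, y ≤ Y} e(∑_l α_l (x y)^l)` for degrees `k` growing with `Y`.
-/

set_option autoImplicit false

namespace Pool.Agent.VMV

open Finset

/-- `e t = exp (2 π i t)`. -/
noncomputable def e (t : ℝ) : ℂ := Complex.exp (2 * Real.pi * Complex.I * t)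

/-- The vector of the power sums `∑ i, x i ^ (j + 1)`, `j < k`. -/
def ps (k : ℕ) {ι : Type*} [Fintype ι] (x : ι → ℤ) : Fin k → ℤ := fun j => ∑ i, x i ^ (j.1 + 1)

open Classical in
/-- The number of the pairs `(x, y) ∈ S × S'` with `Φ x = Φ' y`. -/
noncomputable def Cr {Ω Ω' V : Type*} (S : Finset Ω) (S' : Finset Ω') (Φ : Ω → V) (Φ' : Ω' → V) : ℕ :=
  ((S ×ˢ S').filter fun p => Φ p.1 = Φ' p.2).card

/-- The number of the pairs `(x, y) ∈ S × S` with `Φ x = Φ y`. -/
noncomputable def En {Ω V : Type*} (S : Finset Ω) (Φ : Ω → V) : ℕ := Cr S S Φ Φ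

/-- The `s`-tuples with entries in `A`. -/
def tup (s : ℕ) (A : Finset ℤ) : Finset (Fin s → ℤ) := Fintype.piFinset fun _ => A

/-- The number of the solutions of the Vinogradov system of degree `k` in `2 s` variables in `A`. -/
noncomputable def J (k s : ℕ) (A : Finset ℤ) : ℕ := En (tup s A) (ps k)

/-- The number of the solutions of the Vinogradov system of degree `k` in `2 s` variables
in `[1, P]`. -/
noncomputable def JP (k s P : ℕ) : ℕ := J k s (Finset.Icc 1 (P : ℤ))

/-- The elements of `[1, P]` in the residue class `r` modulo `p`. -/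
noncomputable def cls (p P : ℕ) (r : ℤ) : Finset ℤ :=
  (Finset.Icc 1 (P : ℤ)).filter fun u => u % (p : ℤ) = r

/-- The residues modulo `p` of the entries of the tuple `x` are pairwise different. -/
def Dist (p : ℕ) {ι : Type*} (x : ι → ℤ) : Prop := ∀ i j, i ≠ j → ¬ (p : ℤ) ∣ x i - x j

open Classical in
/-- The `k`-tuples in `[1, P]` with pairwise different residues modulo `p`. -/
noncomputable def dtup (p k P : ℕ) : Finset (Fin k → ℤ) :=
  (tup k (Finset.Icc 1 (P : ℤ))).filter fun x => Dist p x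

/-- The sum of the absolute values of the geometric sums `∑_l e(α l μ)`. -/
noncomputable def W (α : ℝ) (M : ℕ) : ℝ :=
  ∑ μ ∈ Finset.Icc (-(M : ℤ)) M, ‖∑ l ∈ Finset.Icc (-(M : ℤ)) M, e (α * l * μ)‖

/-- The bilinear sum `∑_{x, y ≤ Y} e(∑_l α_l (x y)^(l+1))`. -/
noncomputable def Bil {k : ℕ} (α : Fin k → ℝ) (Y : ℕ) : ℂ :=
  ∑ x ∈ Finset.Icc 1 Y, ∑ y ∈ Finset.Icc 1 Y, e (∑ l, α l * ((x : ℝ) * y) ^ (l.1 + 1))

end Pool.Agent.VMV
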