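import Pool.Agent.VMV.EnInt

/-!
# VMV / Hold: the Hölder inequality over the residue classes

PROOF of `holder`.  By `mixed_eq_integral`. For every point `x` of the torus let
`F = ∑_{w ∈ R} mFourier (Φ w) x`, `S = ∑_{u ∈ A} mFourier (ps1 u) x`, `S_i` the same sum over the
`u ∈ A` with `c u = i`; `S = ∑_{i ∈ I} S_i` (`Finset.sum_fiberwise_of_maps_to`). So
`‖S‖ ^ (2 s) ≤ (∑_i ‖S_i‖) ^ (2 s) ≤ #I ^ (2 s - 1) * ∑_i ‖S_i‖ ^ (2 s) ≤ #I ^ (2 s) max_i ..`
(`inner_le_nnorm_mul_nnorm` is not needed: `inv_pow_sum..`, see `pow_sum_div_card_le_sum_pow`; for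
`s = 0` everything is trivial; the power mean inequality also follows from the bound by the maximum
only AFTER integration, so use the form
`(∑_i z_i) ^ (2 s) ≤ #I ^ (2 s - 1) * ∑_i z_i ^ (2 s)` for `s ≥ 1`).
Multiply by `‖F‖ ^ 2`, integrate: `En(..A) ≤ #I ^ (2 s - 1) ∑_{i ∈ I} En(..A_i)`, and the sum is at most
`#I` times its largest term.
`holderJ`: the case `R = {()}`, `Φ = 0`; `En ({()} ×ˢ tup s A) (fun q => 0 + ps k q.2) = J k s A`
(`en_congr`, or directly).
-/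

set_option autoImplicit false

namespace Pool.Agent.VMV

open MeasureTheory UnitAddTorus

private theorem hold_int {k : ℕ} {g : UnitAddTorus (Fin k) → ℝ} (hg : Continuous g) :
    Integrable g (mT k) :=
  hg.integrable_of_hasCompactSupport (HasCompactSupport.of_compactSpace g)

theorem holder {Ω ι : Type*} [DecidableEq ι] {k : ℕ} (R : Finset Ω) (Φ : Ω → Fin k → ℤ)
    (A : Finset ℤ) (c : ℤ → ι) (I : Finset ι) (hI : ∀ u ∈ A, c u ∈ I) (hne : I.Nonempty) (s : ℕ) :
    ∃ i ∈ I, En (R ×ˢ tup s A) (fun q => Φ q.1 + ps k q.2) ≤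
      I.card ^ (2 * s) *
        En (R ×ˢ tup s (A.filter fun u => c u = i)) (fun q => Φ q.1 + ps k q.2) := by
  rcases Nat.eq_zero_or_pos s with rfl | hs
  · obtain ⟨i, hi⟩ := hne
    refine ⟨i, hi, ?_⟩
    have h1 : tup 0 (A.filter fun u => c u = i) = tup 0 A := by
      ext x
      simp [tup]
    rw [h1]
    simp
  obtain ⟨m, hm⟩ : ∃ m, 2 * s = m + 1 := ⟨2 * s - 1, by omega⟩
  obtain ⟨i, hi, hmax⟩ := Finset.exists_max_image I
    (fun i => En (R ×ˢ tup s (A.filter fun u => c u = i)) (fun q => Φ q.1 + ps k q.2)) hne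
  refine ⟨i, hi, ?_⟩
  have hcard : (0 : ℝ) < I.card := by exact_mod_cast Finset.card_pos.2 hne
  have key : (En (R ×ˢ tup s A) (fun q => Φ q.1 + ps k q.2) : ℝ) ≤ (I.card : ℝ) ^ m *
      ∑ j ∈ I, (En (R ×ˢ tup s (A.filter fun u => c u = j)) (fun q => Φ q.1 + ps k q.2) : ℝ) := by
    simp only [mixed_eq_integral]
    rw [← integral_finsetSum, ← integral_const_mul]
    · refine integral_mono (hold_int ?_) (hold_int ?_) fun x => ?_
      · fun_prop
      · fun_prop
      · simp only [← pow_mul, mul_comm s 2, ← Finset.mul_sum]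
        have hS : ∑ u ∈ A, mFourier (ps1 k u) x =
            ∑ j ∈ I, ∑ u ∈ A.filter (fun u => c u = j), mFourier (ps1 k u) x :=
          (Finset.sum_fiberwise_of_maps_to hI _).symm
        have h2 : ‖∑ u ∈ A, mFourier (ps1 k u) x‖ ≤
            ∑ j ∈ I, ‖∑ u ∈ A.filter (fun u => c u = j), mFourier (ps1 k u) x‖ := by
          rw [hS]
          exact norm_sum_le _ _
        have h3 := pow_sum_div_card_le_sum_pow (s := I)
          (f := fun j => ‖∑ u ∈ A.filter (fun u => c u = j), mFourier (ps1 k u) x‖)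
          (fun j _ => norm_nonneg _) m
        rw [div_le_iff₀ (pow_pos hcard m)] at h3
        have h4 : ‖∑ u ∈ A, mFourier (ps1 k u) x‖ ^ (2 * s) ≤ (I.card : ℝ) ^ m *
            ∑ j ∈ I, ‖∑ u ∈ A.filter (fun u => c u = j), mFourier (ps1 k u) x‖ ^ (2 * s) := by
          rw [hm, mul_comm]
          exact (pow_le_pow_left₀ (norm_nonneg _) h2 _).trans h3
        calc ‖∑ w ∈ R, mFourier (Φ w) x‖ ^ 2 * ‖∑ u ∈ A, mFourier (ps1 k u) x‖ ^ (2 * s)
            ≤ ‖∑ w ∈ R, mFourier (Φ w) x‖ ^ 2 * ((I.card : ℝ) ^ m *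
              ∑ j ∈ I, ‖∑ u ∈ A.filter (fun u => c u = j), mFourier (ps1 k u) x‖ ^ (2 * s)) :=
              mul_le_mul_of_nonneg_left h4 (by positivity)
          _ = _ := by ring
    · intro j _
      exact hold_int (by fun_prop)
  have h5 : ∑ j ∈ I, (En (R ×ˢ tup s (A.filter fun u => c u = j)) (fun q => Φ q.1 + ps k q.2) : ℝ) ≤
      I.card * En (R ×ˢ tup s (A.filter fun u => c u = i)) (fun q => Φ q.1 + ps k q.2) := by
    rw [← nsmul_eq_mul]
    exact Finset.sum_le_card_nsmul _ _ _ fun j hj => by exact_mod_cast hmax j hj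
  have h6 := key.trans (mul_le_mul_of_nonneg_left h5 (pow_nonneg hcard.le m))
  rw [← mul_assoc, ← pow_succ, ← hm] at h6
  exact_mod_cast h6

private theorem hold_J (k s : ℕ) (A : Finset ℤ) :
    En (({()} : Finset Unit) ×ˢ tup s A) (fun q => (fun _ => (0 : Fin k → ℤ)) q.1 + ps k q.2) =
      J k s A := by
  classical
  unfold J En Cr
  refine Finset.card_nbij' (fun p => (p.1.2, p.2.2)) (fun p => (((), p.1), ((), p.2))) ?_ ?_ ?_ ?_
  · intro p hp
    simp only [Finset.coe_filter, Finset.mem_product, Set.mem_ofPred_eq, zero_add] at hp ⊢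
    exact ⟨⟨hp.1.1.2, hp.1.2.2⟩, hp.2⟩
  · intro p hp
    simp only [Finset.coe_filter, Finset.mem_product, Set.mem_ofPred_eq, zero_add] at hp ⊢
    exact ⟨⟨⟨Finset.mem_singleton_self _, hp.1.1⟩, ⟨Finset.mem_singleton_self _, hp.1.2⟩⟩, hp.2⟩
  · intro p _
    rfl
  · intro p _
    rfl

theorem holderJ {ι : Type*} [DecidableEq ι] (k : ℕ) (A : Finset ℤ) (c : ℤ → ι) (I : Finset ι)
    (hI : ∀ u ∈ A, c u ∈ I) (hne : I.Nonempty) (s : ℕ) :
    ∃ i ∈ I, J k s A ≤ I.card ^ (2 * s) * J k s (A.filter fun u => c u = i) := by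
  obtain ⟨i, hi, h⟩ := holder ({()} : Finset Unit) (fun _ => (0 : Fin k → ℤ)) A c I hI hne s
  rw [hold_J, hold_J] at h
  exact ⟨i, hi, h⟩

end Pool.Agent.VMV
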