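import Pool.Agent.VMV.Nondeg
import Pool.Agent.VMV.Hold

/-!
# VMV / Deg: the degenerate part

PROOF.  Let `x ∈ tup t [1, P]` be not in `ndtup p k t P`. Then the residues `x i % p` take less than `k`
values (otherwise choose `k` indices with different residues), so there is a subset `B` of
`{0, .., p-1}` with `k - 1` elements (`p ≥ k - 1`; enlarge) which contains all the residues
`x i % p`: `x ∈ tup t (A_B)`, `A_B = {u ∈ [1, P] : u % p ∈ B}`. The number of the `B` is
`p.choose (k - 1) ≤ p ^ (k - 1)` (`Nat.choose_le_pow`). By `en_biUnion_le`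
`En (..) ≤ (p^(k-1)) * ∑_B J k t (A_B) ≤ (p^(k-1))^2 max_B J k t (A_B)`. By `holderJ` (with
`c u = u % p`, `I = B`; if `k = 1` then `B = ∅` and `t = 0` or there is no such `x`; if `k = 0` there is no
such `x`) `J k t (A_B) ≤ (k - 1)^(2 t) J k t (cls p P r)` for some `r ∈ B`, and
`J k t (cls p P r) ≤ JP k t (P / p + 1)` (`J_cls_le`).
`k ≥ 2` is assumed.
-/

set_option autoImplicit false

namespace Pool.Agent.VMV

/-- The elements of `[1, P]` with residues in `B`. -/
private noncomputable def degA (p P : ℕ) (B : Finset ℤ) : Finset ℤ :=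
  (Finset.Icc 1 (P : ℤ)).filter fun u => u % (p : ℤ) ∈ B

private theorem deg_J {p k t P : ℕ} (hk : 2 ≤ k) (hp : k < p) {B : Finset ℤ}
    (hB : B.card = k - 1) : J k t (degA p P B) ≤ k ^ (2 * t) * JP k t (P / p + 1) := by
  have hne : B.Nonempty := by
    rw [← Finset.card_pos, hB]
    omega
  obtain ⟨r, -, hr2⟩ := holderJ k (degA p P B) (fun u => u % (p : ℤ)) B
    (fun u hu => (Finset.mem_filter.1 hu).2) hne t
  refine hr2.trans (Nat.mul_le_mul (Nat.pow_le_pow_left (by omega) _) ?_)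
  refine (J_mono ?_).trans (J_cls_le (by omega) r)
  intro u hu
  rw [Finset.mem_filter] at hu
  exact Finset.mem_filter.2 ⟨(Finset.mem_filter.1 hu.1).1, hu.2⟩

private theorem deg_mem {p k t P : ℕ} (hk : 2 ≤ k) (hp : k < p) {x : Fin t → ℤ}
    (hx : x ∈ tup t (Finset.Icc 1 (P : ℤ)) \ ndtup p k t P) :
    ∃ B ∈ Finset.powersetCard (k - 1) (Finset.Ico (0 : ℤ) p), x ∈ tup t (degA p P B) := by
  classical
  rw [Finset.mem_sdiff] at hx
  obtain ⟨hx1, hx2⟩ := hx
  have hp0 : (0 : ℤ) < p := by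
    have : 0 < p := by omega
    exact_mod_cast this
  have hsub : Finset.univ.image (fun i => x i % (p : ℤ)) ⊆ Finset.Ico (0 : ℤ) p := by
    intro r hr
    obtain ⟨i, -, rfl⟩ := Finset.mem_image.1 hr
    exact Finset.mem_Ico.2 ⟨Int.emod_nonneg _ hp0.ne', Int.emod_lt_of_pos _ hp0⟩
  have hcard : (Finset.univ.image (fun i => x i % (p : ℤ))).card ≤ k - 1 := by
    by_contra hc
    have hc' : k ≤ (Finset.univ.image (fun i => x i % (p : ℤ))).card := by omega
    obtain ⟨U, hU1, hU2⟩ := Finset.exists_subset_card_eq hc'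
    have hch : ∀ r : U, ∃ i, x i % (p : ℤ) = r := by
      intro r
      obtain ⟨i, -, hi⟩ := Finset.mem_image.1 (hU1 r.2)
      exact ⟨i, hi⟩
    choose g hg using hch
    apply hx2
    unfold ndtup
    rw [Finset.mem_filter]
    refine ⟨hx1, fun j => g (U.equivFin.symm (Fin.cast hU2.symm j)), ?_⟩
    intro i j hij hdvd
    apply hij
    have h2 : x (g (U.equivFin.symm (Fin.cast hU2.symm i))) % (p : ℤ) =
        x (g (U.equivFin.symm (Fin.cast hU2.symm j))) % (p : ℤ) :=
      Int.emod_eq_emod_iff_emod_sub_eq_zero.2 (Int.emod_eq_zero_of_dvd hdvd)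
    rw [hg, hg] at h2
    have h3 := U.equivFin.symm.injective (Subtype.ext h2)
    exact Fin.cast_injective _ h3
  obtain ⟨B, hB1, hB2, hB3⟩ := Finset.exists_subsuperset_card_eq hsub hcard (by
    rw [Int.card_Ico]
    omega)
  refine ⟨B, Finset.mem_powersetCard.2 ⟨hB2, hB3⟩, ?_⟩
  unfold tup at hx1 ⊢
  rw [Fintype.mem_piFinset] at hx1 ⊢
  intro i
  exact Finset.mem_filter.2 ⟨hx1 i, hB1 (Finset.mem_image_of_mem _ (Finset.mem_univ i))⟩

theorem deg {p k t P : ℕ} (hk : 2 ≤ k) (hp : k < p) :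
    En (tup t (Finset.Icc 1 (P : ℤ)) \ ndtup p k t P) (ps k) ≤
      p ^ (2 * (k - 1)) * k ^ (2 * t) * JP k t (P / p + 1) := by
  have h1 := en_biUnion_le (Finset.powersetCard (k - 1) (Finset.Ico (0 : ℤ) p))
    (tup t (Finset.Icc 1 (P : ℤ)) \ ndtup p k t P) (fun B => tup t (degA p P B))
    (fun x hx => deg_mem hk hp hx) (ps k)
  have h2 : ∑ B ∈ Finset.powersetCard (k - 1) (Finset.Ico (0 : ℤ) p),
      En (tup t (degA p P B)) (ps k) ≤
      (Finset.powersetCard (k - 1) (Finset.Ico (0 : ℤ) p)).card *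
        (k ^ (2 * t) * JP k t (P / p + 1)) := by
    rw [← smul_eq_mul (Finset.card _)]
    refine Finset.sum_le_card_nsmul _ _ _ fun B hB => ?_
    exact deg_J hk hp (Finset.mem_powersetCard.1 hB).2
  have h3 : (Finset.powersetCard (k - 1) (Finset.Ico (0 : ℤ) p)).card ≤ p ^ (k - 1) := by
    rw [Finset.card_powersetCard, Int.card_Ico]
    simp only [sub_zero, Int.toNat_natCast]
    exact Nat.choose_le_pow _ _
  calc En (tup t (Finset.Icc 1 (P : ℤ)) \ ndtup p k t P) (ps k)
      ≤ p ^ (k - 1) * (p ^ (k - 1) * (k ^ (2 * t) * JP k t (P / p + 1))) :=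
        h1.trans (Nat.mul_le_mul h3 (h2.trans (Nat.mul_le_mul_right _ h3)))
    _ = p ^ (2 * (k - 1)) * k ^ (2 * t) * JP k t (P / p + 1) := by
        rw [two_mul (k - 1), pow_add]
        ring

end Pool.Agent.VMV
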