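import Pool.Agent.VMV.Defs

/-!
# VMV / En: combinatorial Cauchy-Schwarz inequalities for the number of coincidences

Notation: for a value `v` let `r v` be the number of `x ∈ S` with `Φ x = v`, `r' v` the same for
`S', Φ'`. Then `Cr S S' Φ Φ' = ∑_v r v * r' v` (sum over the finite set of the values) and
`En S Φ = ∑_v r v ^ 2`.

PROOFS.  `cr_sq_le`: Cauchy-Schwarz (`Finset.sum_mul_sq_le_sq_mul_sq`).
`cr_shift_le`: if `Φ x - Φ y = t` is written `Φ x = Φ y + t`, this is `Cr S S Φ (Φ + t)` and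
`En S (Φ + t) = En S Φ`; use `cr_sq_le` and `a ^ 2 ≤ b * b → a ≤ b`.
`en_biUnion_le`: `r v ≤ ∑_i r_i v` for the counting functions of `T i`, so
`r v ^ 2 ≤ #I * ∑_i r_i v ^ 2` (`inner_mul_le_norm_mul_norm` / `sq_sum_le_card_mul_sum_sq`).
`en_congr`: a bijection. `en_mono`: clear. `en_union_le`: `en_biUnion_le` for two sets
(or directly: `(x + y)^2 ≤ 2 x^2 + 2 y^2`).
`en_le_card_sq`: clear.
-/

set_option autoImplicit false

namespace Pool.Agent.VMV

variable {Ω Ω' V : Type*}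

open Classical in
private theorem cr_eq_sum (S : Finset Ω) (S' : Finset Ω') (Φ : Ω → V) (Φ' : Ω' → V) (U : Finset V)
    (hU : ∀ x ∈ S, Φ x ∈ U) :
    Cr S S' Φ Φ' = ∑ v ∈ U, (S.filter fun x => Φ x = v).card * (S'.filter fun x => Φ' x = v).card := by
  unfold Cr
  rw [Finset.card_eq_sum_card_fiberwise (f := fun p : Ω × Ω' => Φ p.1) (t := U)]
  · refine Finset.sum_congr rfl fun v _ => ?_
    rw [← Finset.card_product]
    congr 1
    ext ⟨x, y⟩
    simp only [Finset.mem_filter, Finset.mem_product]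
    constructor
    · rintro ⟨⟨⟨h1, h2⟩, h3⟩, h4⟩
      exact ⟨⟨h1, h4⟩, h2, by rw [← h3, h4]⟩
    · rintro ⟨⟨h1, h4⟩, h2, h3⟩
      exact ⟨⟨⟨h1, h2⟩, by rw [h3, h4]⟩, h4⟩
  · intro p hp
    have hp' := Finset.mem_filter.1 (Finset.mem_coe.1 hp)
    exact Finset.mem_coe.2 (hU _ (Finset.mem_product.1 hp'.1).1)

open Classical in
private theorem en_eq_sum (S : Finset Ω) (Φ : Ω → V) (U : Finset V) (hU : ∀ x ∈ S, Φ x ∈ U) :
    En S Φ = ∑ v ∈ U, (S.filter fun x => Φ x = v).card ^ 2 := by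
  unfold En
  rw [cr_eq_sum S S Φ Φ U hU]
  exact Finset.sum_congr rfl fun v _ => (sq _).symm

theorem cr_sq_le (S : Finset Ω) (S' : Finset Ω') (Φ : Ω → V) (Φ' : Ω' → V) :
    Cr S S' Φ Φ' ^ 2 ≤ En S Φ * En S' Φ' := by
  classical
  have h1 : ∀ x ∈ S, Φ x ∈ S.image Φ ∪ S'.image Φ' := fun x hx =>
    Finset.mem_union_left _ (Finset.mem_image_of_mem _ hx)
  have h2 : ∀ x ∈ S', Φ' x ∈ S.image Φ ∪ S'.image Φ' := fun x hx =>
    Finset.mem_union_right _ (Finset.mem_image_of_mem _ hx)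
  rw [cr_eq_sum S S' Φ Φ' _ h1, en_eq_sum S Φ _ h1, en_eq_sum S' Φ' _ h2]
  exact Finset.sum_mul_sq_le_sq_mul_sq _ _ _

theorem cr_shift_le [AddGroup V] (S : Finset Ω) (Φ : Ω → V) (t : V) :
    Cr S S Φ (fun y => Φ y + t) ≤ En S Φ := by
  classical
  have h1 := cr_sq_le S S Φ (fun y => Φ y + t)
  have h2 : En S (fun y => Φ y + t) = En S Φ := by
    unfold En Cr
    simp only [add_left_inj]
  rw [h2] at h1
  by_contra h3
  push Not at h3
  nlinarith

theorem en_biUnion_le {ι : Type*} (I : Finset ι) (S : Finset Ω) (T : ι → Finset Ω)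
    (h : ∀ x ∈ S, ∃ i ∈ I, x ∈ T i) (Φ : Ω → V) : En S Φ ≤ I.card * ∑ i ∈ I, En (T i) Φ := by
  classical
  set U : Finset V := S.image Φ ∪ I.biUnion fun i => (T i).image Φ with hU
  have h1 : ∀ x ∈ S, Φ x ∈ U := fun x hx =>
    Finset.mem_union_left _ (Finset.mem_image_of_mem _ hx)
  have h2 : ∀ i ∈ I, ∀ x ∈ T i, Φ x ∈ U := fun i hi x hx =>
    Finset.mem_union_right _ (Finset.mem_biUnion.2 ⟨i, hi, Finset.mem_image_of_mem _ hx⟩)
  have h3 : ∑ i ∈ I, En (T i) Φ = ∑ i ∈ I, ∑ v ∈ U, ((T i).filter fun x => Φ x = v).card ^ 2 :=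
    Finset.sum_congr rfl fun i hi => en_eq_sum (T i) Φ U (h2 i hi)
  rw [en_eq_sum S Φ U h1, h3, Finset.sum_comm, Finset.mul_sum]
  refine Finset.sum_le_sum fun v _ => ?_
  have h4 : (S.filter fun x => Φ x = v).card ≤ ∑ i ∈ I, ((T i).filter fun x => Φ x = v).card := by
    refine (Finset.card_le_card (t := I.biUnion fun i => (T i).filter fun x => Φ x = v) ?_).trans
      Finset.card_biUnion_le
    intro x hx
    rw [Finset.mem_filter] at hx
    obtain ⟨i, hi, hxi⟩ := h x hx.1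
    exact Finset.mem_biUnion.2 ⟨i, hi, Finset.mem_filter.2 ⟨hxi, hx.2⟩⟩
  refine (Nat.pow_le_pow_left h4 2).trans ?_
  have h5 := Finset.sum_mul_sq_le_sq_mul_sq I (fun _ => 1)
    (fun i => ((T i).filter fun x => Φ x = v).card)
  simpa using h5

theorem en_union_le [DecidableEq Ω] (S T : Finset Ω) (Φ : Ω → V) :
    En (S ∪ T) Φ ≤ 2 * En S Φ + 2 * En T Φ := by
  have h1 := en_biUnion_le (Finset.univ : Finset Bool) (S ∪ T) (fun b => if b then S else T)
    (fun x hx => by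
      rcases Finset.mem_union.1 hx with h | h
      · exact ⟨true, Finset.mem_univ _, by simpa using h⟩
      · exact ⟨false, Finset.mem_univ _, by simpa using h⟩) Φ
  rw [Fintype.sum_bool] at h1
  simp only [if_true, Finset.card_univ, Fintype.card_bool] at h1
  have h2 : (if false = true then S else T) = T := by simp
  rw [h2] at h1
  linarith

theorem en_mono {S T : Finset Ω} (h : S ⊆ T) (Φ : Ω → V) : En S Φ ≤ En T Φ := by
  classical
  unfold En Cr
  exact Finset.card_le_card (Finset.filter_subset_filter _ (Finset.product_subset_product h h))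

theorem en_le_card_sq (S : Finset Ω) (Φ : Ω → V) : En S Φ ≤ S.card ^ 2 := by
  classical
  unfold En Cr
  refine (Finset.card_filter_le _ _).trans (le_of_eq ?_)
  rw [Finset.card_product, sq]

/-- Invariance under bijections and changes of the values. -/
theorem en_congr {V' : Type*} (S : Finset Ω) (S' : Finset Ω') (Φ : Ω → V) (Φ' : Ω' → V')
    (f : Ω → Ω') (hf : Set.BijOn f S S')
    (h : ∀ x ∈ S, ∀ y ∈ S, Φ x = Φ y ↔ Φ' (f x) = Φ' (f y)) : En S Φ = En S' Φ' := by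
  classical
  unfold En Cr
  refine Finset.card_bij (fun p _ => (f p.1, f p.2)) ?_ ?_ ?_
  · rintro ⟨x, y⟩ hp
    rw [Finset.mem_filter, Finset.mem_product] at hp ⊢
    exact ⟨⟨hf.1 hp.1.1, hf.1 hp.1.2⟩, (h x hp.1.1 y hp.1.2).1 hp.2⟩
  · rintro ⟨x, y⟩ hp ⟨x', y'⟩ hp' he
    rw [Finset.mem_filter, Finset.mem_product] at hp hp'
    have h1 : f x = f x' := congrArg Prod.fst he
    have h2 : f y = f y' := congrArg Prod.snd he
    exact Prod.ext (hf.2.1 hp.1.1 hp'.1.1 h1) (hf.2.1 hp.1.2 hp'.1.2 h2)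
  · rintro ⟨u, v⟩ hp
    rw [Finset.mem_filter, Finset.mem_product] at hp
    obtain ⟨x, hx, rfl⟩ := hf.2.2 hp.1.1
    obtain ⟨y, hy, rfl⟩ := hf.2.2 hp.1.2
    exact ⟨(x, y), Finset.mem_filter.2 ⟨Finset.mem_product.2 ⟨hx, hy⟩, (h x hx y hy).2 hp.2⟩, rfl⟩

/-- An injection which reflects coincidences. -/
theorem en_le_of_injOn {V' : Type*} (S : Finset Ω) (S' : Finset Ω') (Φ : Ω → V) (Φ' : Ω' → V')
    (f : Ω → Ω') (hf : Set.MapsTo f S S') (hi : Set.InjOn f S)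
    (h : ∀ x ∈ S, ∀ y ∈ S, Φ x = Φ y → Φ' (f x) = Φ' (f y)) : En S Φ ≤ En S' Φ' := by
  classical
  unfold En Cr
  refine Finset.card_le_card_of_injOn (fun p => (f p.1, f p.2)) ?_ ?_
  · rintro ⟨x, y⟩ hp
    have hp' := Finset.mem_filter.1 (Finset.mem_coe.1 hp)
    rw [Finset.mem_product] at hp'
    exact Finset.mem_coe.2 (Finset.mem_filter.2 ⟨Finset.mem_product.2
      ⟨hf hp'.1.1, hf hp'.1.2⟩, h x hp'.1.1 y hp'.1.2 hp'.2⟩)
  · rintro ⟨x, y⟩ hp ⟨x', y'⟩ hp' he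
    have hq := Finset.mem_filter.1 (Finset.mem_coe.1 hp)
    have hq' := Finset.mem_filter.1 (Finset.mem_coe.1 hp')
    rw [Finset.mem_product] at hq hq'
    have h1 : f x = f x' := congrArg Prod.fst he
    have h2 : f y = f y' := congrArg Prod.snd he
    exact Prod.ext (hi hq.1.1 hq'.1.1 h1) (hi hq.1.2 hq'.1.2 h2)

end Pool.Agent.VMV
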