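import Pool.Agent.VMV.Defs

/-!
# VMV / EnInt: the number of coincidences as an integral

`mT k` is the normalised Haar measure of the torus `(ℝ/ℤ)^k`; `UnitAddTorus.mFourier v` is the
character `α ↦ e(v · α)`.

PROOFS.  `integral_mFourier`: `mFourier v x = ∏ i, fourier (v i) (x i)`; `integral_fintype_prod_eq_prod`
(product measures) and `∫ fourier n = 0` for `n ≠ 0`, `= 1` for `n = 0`
(for `AddCircle.haarAddCircle`: `fourierCoeff`, `orthonormal_fourier` or `integral_fourier`...).
`en_eq_integral`: `‖z‖ ^ 2 = z * conj z`, `conj (mFourier v) = mFourier (-v)`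
(`UnitAddTorus.mFourier_neg`), `mFourier (v + w) = mFourier v * mFourier w`
(`UnitAddTorus.mFourier_add`), so the square is the sum over the pairs `(x, y)` of
`mFourier (Φ x - Φ y)`; integrate term by term (everything is continuous on a compact space).
`ps1 k u` is the vector `(u, u^2, .., u^k)`, so `ps k x = ∑ i, ps1 k (x i)` (`ps_eq_sum`).
`prod_expand`: `(∑_{u ∈ A} mFourier (ps1 u)) ^ s = ∑_{x ∈ tup s A} mFourier (ps k x)`:
`Finset.sum_pow'` / `Finset.prod_univ_sum` and `mFourier` of a sum is the product.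
-/

set_option autoImplicit false

namespace Pool.Agent.VMV

open MeasureTheory UnitAddTorus

/-- The normalised Haar measure of the torus. -/
noncomputable def mT (k : ℕ) : Measure (UnitAddTorus (Fin k)) :=
  Measure.pi fun _ => (AddCircle.haarAddCircle : Measure UnitAddCircle)

instance (k : ℕ) : IsProbabilityMeasure (mT k) := by
  unfold mT
  infer_instance

private theorem ei_fourier (n : ℤ) :
    ∫ t : UnitAddCircle, (fourier n t : ℂ) ∂AddCircle.haarAddCircle = if n = 0 then 1 else 0 := by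
  have h := (orthonormal_iff_ite.mp (orthonormal_fourier (T := (1 : ℝ)))) 0 n
  rw [ContinuousMap.inner_toLp] at h
  simp only [fourier_zero, map_one, mul_one] at h
  rw [h]
  simp only [eq_comm]

theorem integral_mFourier (k : ℕ) (v : Fin k → ℤ) :
    ∫ x, mFourier v x ∂(mT k) = if v = 0 then 1 else 0 := by
  unfold mT
  rw [mFourier, ContinuousMap.coe_mk]
  rw [integral_fintype_prod_eq_prod (fun i (t : UnitAddCircle) => (fourier (v i) t : ℂ))]
  simp only [ei_fourier]
  split_ifs with h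
  · rw [h]
    simp
  · obtain ⟨i, hi⟩ := Function.ne_iff.mp h
    apply Finset.prod_eq_zero (Finset.mem_univ i)
    simpa using hi

private theorem ei_int {k : ℕ} {E : Type*} [NormedAddCommGroup E] {f : UnitAddTorus (Fin k) → E}
    (hf : Continuous f) : Integrable f (mT k) :=
  hf.integrable_of_hasCompactSupport (HasCompactSupport.of_compactSpace f)

theorem en_eq_integral {Ω : Type*} {k : ℕ} (S : Finset Ω) (Φ : Ω → Fin k → ℤ) :
    (En S Φ : ℝ) = ∫ x, ‖∑ w ∈ S, mFourier (Φ w) x‖ ^ 2 ∂(mT k) := by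
  have h1 : ∀ x : UnitAddTorus (Fin k), ((‖∑ w ∈ S, mFourier (Φ w) x‖ ^ 2 : ℝ) : ℂ) =
      ∑ p ∈ S ×ˢ S, mFourier (Φ p.1 - Φ p.2) x := by
    intro x
    rw [Complex.ofReal_pow, ← Complex.mul_conj', map_sum, Finset.sum_mul_sum, Finset.sum_product]
    refine Finset.sum_congr rfl fun a _ => Finset.sum_congr rfl fun b _ => ?_
    rw [sub_eq_add_neg, mFourier_add, mFourier_neg]
  have h2 : ((∫ x, ‖∑ w ∈ S, mFourier (Φ w) x‖ ^ 2 ∂(mT k) : ℝ) : ℂ) = ((En S Φ : ℝ) : ℂ) := by
    rw [← integral_complex_ofReal]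
    simp only [h1]
    rw [integral_finsetSum _ fun p _ => ei_int (mFourier _).continuous]
    simp only [integral_mFourier, sub_eq_zero]
    unfold En Cr
    rw [Finset.card_filter]
    push_cast
    refine Finset.sum_congr rfl fun p _ => ?_
    split_ifs <;> simp
  exact_mod_cast h2.symm

/-- The vector `(u, u^2, .., u^k)`. -/
def ps1 (k : ℕ) (u : ℤ) : Fin k → ℤ := fun j => u ^ (j.1 + 1)

theorem ps_eq_sum (k : ℕ) {ι : Type*} [Fintype ι] (x : ι → ℤ) : ps k x = ∑ i, ps1 k (x i) := by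
  funext j
  rw [Finset.sum_apply]
  rfl

private theorem ei_sum {k : ℕ} {ι : Type*} (s : Finset ι) (f : ι → Fin k → ℤ)
    (x : UnitAddTorus (Fin k)) : mFourier (∑ i ∈ s, f i) x = ∏ i ∈ s, mFourier (f i) x := by
  classical
  induction s using Finset.induction_on with
  | empty => rw [Finset.sum_empty, Finset.prod_empty, mFourier_zero]; rfl
  | insert a s ha ih => rw [Finset.sum_insert ha, Finset.prod_insert ha, mFourier_add, ih]

theorem prod_expand (k s : ℕ) (A : Finset ℤ) (x : UnitAddTorus (Fin k)) :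
    (∑ u ∈ A, mFourier (ps1 k u) x) ^ s = ∑ y ∈ tup s A, mFourier (ps k y) x := by
  unfold tup
  have h := Finset.prod_univ_sum (fun _ : Fin s => A) (fun _ u => mFourier (ps1 k u) x)
  rw [Finset.prod_const, Finset.card_univ, Fintype.card_fin] at h
  rw [h]
  refine Finset.sum_congr rfl fun y _ => ?_
  rw [ps_eq_sum, ei_sum]

/-- The mixed moments. -/
theorem mixed_eq_integral {Ω : Type*} {k : ℕ} (s : ℕ) (R : Finset Ω) (Φ : Ω → Fin k → ℤ)
    (A : Finset ℤ) :
    (En (R ×ˢ tup s A) (fun q => Φ q.1 + ps k q.2) : ℝ) =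
      ∫ x, ‖∑ w ∈ R, mFourier (Φ w) x‖ ^ 2 * (‖∑ u ∈ A, mFourier (ps1 k u) x‖ ^ s) ^ 2 ∂(mT k) := by
  rw [en_eq_integral]
  congr 1
  funext x
  have e : ‖∑ w ∈ R, mFourier (Φ w) x‖ ^ 2 * (‖∑ u ∈ A, mFourier (ps1 k u) x‖ ^ s) ^ 2 =
      ‖(∑ w ∈ R, mFourier (Φ w) x) * (∑ u ∈ A, mFourier (ps1 k u) x) ^ s‖ ^ 2 := by
    rw [norm_mul, norm_pow, mul_pow]
  rw [e, prod_expand, Finset.sum_mul_sum, Finset.sum_product]
  congr 2
  refine Finset.sum_congr rfl fun a _ => Finset.sum_congr rfl fun b _ => ?_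
  rw [mFourier_add]

end Pool.Agent.VMV
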