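import Pool.Agent.VMV.Defs

/-!
# VMV / Expo: the exponents of the mean value theorem

PROOFS.  `eta_nonneg`, `eta_le`: `0 ≤ 1 - 1/k ≤ 1`. `EE_one`: `eta k 1 = k (k+1) / 2`.
`EE_succ`: `eta k (τ+1) = (1 - 1/k) eta k τ` for `τ ≥ 1`.
`EE_lower`: Bernoulli's inequality `(1 - 1/k)^(τ-1) ≥ 1 - (τ-1)/k` (`one_add_mul_le_pow`), so
`EE k τ ≥ 2 k τ - (k+1)(τ-1)/2 ≥ 2 k τ - k (τ - 1) = k τ + k`.
`EE_upper`: `eta ≤ k (k+1)/2`.
`eta_final`: `(1 - 1/k)^(m k - 1) ≤ exp (-(m k - 1)/k) = exp (-m + 1/k) ≤ exp (1/2) exp (-m)`,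
`k (k+1)/2 ≤ 3 k^2 / 4`, `3/4 exp (1/2) ≤ 2`.
-/

set_option autoImplicit false

namespace Pool.Agent.VMV

noncomputable def eta (k τ : ℕ) : ℝ := (k : ℝ) * (k + 1) / 2 * (1 - 1 / (k : ℝ)) ^ (τ - 1)

noncomputable def EE (k τ : ℕ) : ℝ := 2 * k * τ - (k : ℝ) * (k + 1) / 2 + eta k τ

private theorem base_nonneg {k : ℕ} (hk : 2 ≤ k) : 0 ≤ 1 - 1 / (k : ℝ) := by
  have h : (2 : ℝ) ≤ k := by exact_mod_cast hk
  have : 1 / (k : ℝ) ≤ 1 := by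
    rw [div_le_one (by linarith)]
    linarith
  linarith

private theorem base_le {k : ℕ} : 1 - 1 / (k : ℝ) ≤ 1 := by
  have : 0 ≤ 1 / (k : ℝ) := by positivity
  linarith

theorem eta_nonneg {k : ℕ} (hk : 2 ≤ k) (τ : ℕ) : 0 ≤ eta k τ := by
  have := base_nonneg hk
  unfold eta
  positivity

theorem eta_le {k : ℕ} (hk : 2 ≤ k) (τ : ℕ) : eta k τ ≤ (k : ℝ) * (k + 1) / 2 := by
  unfold eta
  have h1 := pow_le_one₀ (n := τ - 1) (base_nonneg hk) base_le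
  have h2 : (0 : ℝ) ≤ (k : ℝ) * (k + 1) / 2 := by positivity
  nlinarith

theorem EE_one (k : ℕ) : EE k 1 = 2 * k := by
  unfold EE eta
  simp

theorem EE_succ {k τ : ℕ} (hk : 2 ≤ k) (hτ : 1 ≤ τ) :
    EE k (τ + 1) = EE k τ + 2 * k - eta k τ / k := by
  obtain ⟨t, rfl⟩ : ∃ t, τ = t + 1 := ⟨τ - 1, by omega⟩
  have h : (k : ℝ) ≠ 0 := by
    have : (2 : ℝ) ≤ k := by exact_mod_cast hk
    linarith
  unfold EE eta
  simp only [Nat.add_sub_cancel]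
  push_cast
  rw [pow_succ]
  field_simp
  ring

theorem EE_lower {k τ : ℕ} (hk : 2 ≤ k) (hτ : 1 ≤ τ) : (k : ℝ) * τ + k ≤ EE k τ := by
  obtain ⟨t, rfl⟩ : ∃ t, τ = t + 1 := ⟨τ - 1, by omega⟩
  have hk' : (2 : ℝ) ≤ k := by exact_mod_cast hk
  have hb : 1 + (t : ℝ) * (-(1 / (k : ℝ))) ≤ (1 + -(1 / (k : ℝ))) ^ t := by
    apply one_add_mul_le_pow
    have : 1 / (k : ℝ) ≤ 1 := by
      rw [div_le_one (by linarith)]
      linarith
    linarith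
  unfold EE eta
  simp only [Nat.add_sub_cancel]
  push_cast
  rw [← sub_eq_add_neg] at hb
  have h2 : (0 : ℝ) ≤ (k : ℝ) * (k + 1) / 2 := by positivity
  have h3 := mul_le_mul_of_nonneg_left hb h2
  have h4 : (k : ℝ) * (k + 1) / 2 * (1 + (t : ℝ) * (-(1 / (k : ℝ)))) =
      (k : ℝ) * (k + 1) / 2 - (k + 1) / 2 * t := by
    field_simp
    ring
  rw [h4] at h3
  have ht : (0 : ℝ) ≤ t := Nat.cast_nonneg t
  nlinarith

theorem EE_upper {k : ℕ} (hk : 2 ≤ k) (τ : ℕ) : EE k τ ≤ 2 * k * τ := by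
  have := eta_le hk τ
  unfold EE
  linarith

theorem EE_ge {k : ℕ} (hk : 2 ≤ k) (τ : ℕ) : 2 * k * τ - EE k τ ≤ (k : ℝ) * (k + 1) / 2 := by
  have := eta_nonneg hk τ
  unfold EE
  linarith

theorem eta_final {k m : ℕ} (hk : 2 ≤ k) (hm : 1 ≤ m) :
    eta k (m * k) ≤ 2 * Real.exp (-m) * k ^ 2 := by
  have hk' : (2 : ℝ) ≤ k := by exact_mod_cast hk
  have hk0 : (0 : ℝ) < k := by linarith
  have hmk : 1 ≤ m * k := Nat.one_le_iff_ne_zero.2 (by positivity)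
  unfold eta
  have h1 : (1 - 1 / (k : ℝ)) ^ (m * k - 1) ≤ Real.exp (-m + 1 / k) := by
    have h2 : 1 - 1 / (k : ℝ) ≤ Real.exp (-(1 / (k : ℝ))) := by
      have := Real.add_one_le_exp (-(1 / (k : ℝ)))
      linarith
    calc (1 - 1 / (k : ℝ)) ^ (m * k - 1) ≤ Real.exp (-(1 / (k : ℝ))) ^ (m * k - 1) :=
          pow_le_pow_left₀ (base_nonneg hk) h2 _
      _ = Real.exp (((m * k - 1 : ℕ) : ℝ) * (-(1 / (k : ℝ)))) := by rw [← Real.exp_nat_mul]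
      _ = Real.exp (-m + 1 / k) := by
        congr 1
        rw [Nat.cast_sub hmk]
        push_cast
        field_simp
        ring
  have h3 : Real.exp (-m + 1 / k) ≤ Real.exp (-m) * 2 := by
    rw [Real.exp_add]
    apply mul_le_mul_of_nonneg_left _ (Real.exp_pos _).le
    have h4 : 1 / (k : ℝ) ≤ 1 / 2 := by
      apply one_div_le_one_div_of_le (by norm_num) hk'
    calc Real.exp (1 / (k : ℝ)) ≤ Real.exp (1 / 2) := Real.exp_le_exp.2 h4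
      _ ≤ 2 := by
        have h5 : Real.exp (1 / 2) ^ 2 = Real.exp 1 := by
          rw [← Real.exp_nat_mul]
          norm_num
        have h6 := Real.exp_one_lt_d9
        have h7 := Real.exp_pos (1 / 2 : ℝ)
        nlinarith
  have h5 : (k : ℝ) * (k + 1) / 2 ≤ k ^ 2 := by nlinarith
  have h6 : (0 : ℝ) ≤ (1 - 1 / (k : ℝ)) ^ (m * k - 1) := pow_nonneg (base_nonneg hk) _
  calc (k : ℝ) * (k + 1) / 2 * (1 - 1 / (k : ℝ)) ^ (m * k - 1)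
      ≤ k ^ 2 * (Real.exp (-m) * 2) := mul_le_mul h5 (h1.trans h3) h6 (by positivity)
    _ = 2 * Real.exp (-m) * k ^ 2 := by ring

end Pool.Agent.VMV
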