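import Pool.Agent.VMV.Defs

/-!
# VMV / Newt: power sums modulo `p^k` determine a tuple with different residues modulo `p`

PROOF.  Work in `R = ZMod (p ^ k)`; `X i, Y i` the images of `x i, y i`. The power sums of `X` and `Y`
of the orders `1, .., k` are equal in `R`, and `1, .., k` are units of `R` (`p` is prime, `k < p`). By
Newton's identities (`MvPolynomial.mul_esymm_eq_sum`, evaluated at `X` and `Y`) the elementary
symmetric functions of the orders `≤ k` are equal (strong induction). So
`∏_l (T - X l) = ∏_l (T - Y l)` in `R[T]` (`Multiset.prod_X_sub_C_eq_sum_esymm`,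
`MvPolynomial.prod_C_add_X..`); put `T = X i`: `∏_l (X i - Y l) = 0` in `R`, i.e.
`p ^ k ∣ ∏_l (x i - y l)`. At most one of the factors `x i - y l` is divisible by `p` (since
the `y l` are different modulo `p`), the others are coprime to `p`, so `p ^ k ∣ x i - y l` for some
`l =: σ i` (if `k ≥ 1`; for `k = 0` there is nothing to prove). `σ` is injective because the `x i` are
different modulo `p`; so it is a permutation (`Equiv.ofBijective`, `Finite.injective_iff_bijective`).
-/

set_option autoImplicit false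

namespace Pool.Agent.VMV

open Finset

/-- The elementary symmetric functions of a tuple. -/
private noncomputable def es {R : Type*} [CommRing R] {k : ℕ} (Z : Fin k → R) (j : ℕ) : R :=
  (Multiset.map Z (Finset.univ : Finset (Fin k)).val).esymm j

private lemma es_eq {R : Type*} [CommRing R] {k : ℕ} (Z : Fin k → R) (j : ℕ) :
    MvPolynomial.aeval Z (MvPolynomial.esymm (Fin k) R j) = es Z j :=
  MvPolynomial.aeval_esymm_eq_multiset_esymm (Fin k) R j Z

private lemma es_rec {R : Type*} [CommRing R] {k : ℕ} (Z : Fin k → R) (j : ℕ) :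
    (j : R) * es Z j = (-1) ^ (j + 1) *
      ∑ a ∈ antidiagonal j with a.1 < j, (-1) ^ a.1 * es Z a.1 * ∑ i, Z i ^ a.2 := by
  have h := congrArg (MvPolynomial.aeval Z) (MvPolynomial.mul_esymm_eq_sum (Fin k) R j)
  rw [map_mul, map_mul, map_sum, map_natCast, es_eq, map_pow, map_neg, map_one] at h
  rw [h]
  refine congrArg (fun t => (-1 : R) ^ (j + 1) * t) (Finset.sum_congr rfl fun a _ => ?_)
  rw [map_mul, map_mul, map_pow, map_neg, map_one, es_eq]
  have h2 : MvPolynomial.aeval Z (MvPolynomial.psum (Fin k) R a.2) = ∑ i, Z i ^ a.2 := by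
    unfold MvPolynomial.psum
    rw [map_sum]
    refine Finset.sum_congr rfl fun i _ => ?_
    rw [map_pow, MvPolynomial.aeval_X]
  rw [h2]

private lemma es_congr {R : Type*} [CommRing R] {k : ℕ} (Z Z' : Fin k → R)
    (hu : ∀ j : ℕ, 1 ≤ j → j ≤ k → IsUnit (j : R))
    (h : ∀ j : ℕ, 1 ≤ j → j ≤ k → ∑ i, Z i ^ j = ∑ i, Z' i ^ j) :
    ∀ j : ℕ, j ≤ k → es Z j = es Z' j := by
  intro j
  induction j using Nat.strong_induction_on with
  | _ j ih =>
    intro hj
    rcases Nat.eq_zero_or_pos j with h0 | h0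
    · subst h0
      unfold es
      simp [Multiset.esymm]
    · have h1 := es_rec Z j
      have h2 := es_rec Z' j
      have h3 : (j : R) * es Z j = (j : R) * es Z' j := by
        rw [h1, h2]
        refine congrArg (fun t => (-1 : R) ^ (j + 1) * t) (Finset.sum_congr rfl fun a ha => ?_)
        rw [Finset.mem_filter, Finset.HasAntidiagonal.mem_antidiagonal] at ha
        rw [ih a.1 ha.2 (by omega), h a.2 (by omega) (by omega)]
      exact (hu j h0 hj).mul_left_cancel h3

private lemma prod_eq {R : Type*} [CommRing R] {k : ℕ} (Z : Fin k → R) (z : R) :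
    ∏ l, (z - Z l) = ∑ j ∈ range (k + 1), (-1) ^ j * (es Z j * z ^ (k - j)) := by
  have h := congrArg (Polynomial.eval z)
    (Multiset.prod_X_sub_X_eq_sum_esymm (Multiset.map Z (Finset.univ : Finset (Fin k)).val))
  rw [Polynomial.eval_multiset_prod, Multiset.map_map, Multiset.map_map, Multiset.card_map,
    Polynomial.eval_finsetSum] at h
  have h1 : (Finset.univ : Finset (Fin k)).val.card = k := by
    rw [Finset.card_val, Finset.card_univ, Fintype.card_fin]
  rw [h1] at h
  have h2 : (Multiset.map ((Polynomial.eval z ∘ fun t => Polynomial.X - Polynomial.C t) ∘ Z)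
      (Finset.univ : Finset (Fin k)).val).prod = ∏ l, (z - Z l) := by
    refine Finset.prod_congr rfl fun l _ => ?_
    simp
  rw [← h2, h]
  refine Finset.sum_congr rfl fun j _ => ?_
  unfold es
  simp

theorem newt {p k : ℕ} (hp : p.Prime) (hk : k < p) (x y : Fin k → ℤ) (hx : Dist p x) (hy : Dist p y)
    (h : ∀ j : Fin k, (p : ℤ) ^ k ∣ ps k x j - ps k y j) :
    ∃ σ : Equiv.Perm (Fin k), ∀ i, (p : ℤ) ^ k ∣ x i - y (σ i) := by
  have hpow : ((p ^ k : ℕ) : ℤ) = (p : ℤ) ^ k := by push_cast; rfl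
  have hpr : Prime (p : ℤ) := Nat.prime_iff_prime_int.1 hp
  have hu : ∀ j : ℕ, 1 ≤ j → j ≤ k → IsUnit (j : ZMod (p ^ k)) := by
    intro j h1 h2
    rw [ZMod.isUnit_iff_coprime]
    apply Nat.Coprime.pow_right
    rw [Nat.coprime_comm, hp.coprime_iff_not_dvd]
    intro h3
    have := Nat.le_of_dvd h1 h3
    omega
  have hsum : ∀ j : ℕ, 1 ≤ j → j ≤ k → ∑ i, ((x i : ℤ) : ZMod (p ^ k)) ^ j =
      ∑ i, ((y i : ℤ) : ZMod (p ^ k)) ^ j := by
    intro j h1 h2
    have h3 := h ⟨j - 1, by omega⟩
    unfold ps at h3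
    simp only [Nat.sub_add_cancel h1] at h3
    rw [← hpow, ← ZMod.intCast_zmod_eq_zero_iff_dvd] at h3
    push_cast at h3
    exact sub_eq_zero.1 h3
  have hes := es_congr (fun i => ((x i : ℤ) : ZMod (p ^ k))) (fun i => ((y i : ℤ) : ZMod (p ^ k)))
    hu hsum
  have hprod : ∀ i, (p : ℤ) ^ k ∣ ∏ l, (x i - y l) := by
    intro i
    rw [← hpow, ← ZMod.intCast_zmod_eq_zero_iff_dvd]
    push_cast
    have h1 := prod_eq (fun l => ((y l : ℤ) : ZMod (p ^ k))) ((x i : ℤ) : ZMod (p ^ k))
    have h2 := prod_eq (fun l => ((x l : ℤ) : ZMod (p ^ k))) ((x i : ℤ) : ZMod (p ^ k))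
    have h3 : ∏ l, (((x i : ℤ) : ZMod (p ^ k)) - ((x l : ℤ) : ZMod (p ^ k))) = 0 :=
      Finset.prod_eq_zero (Finset.mem_univ i) (sub_self _)
    rw [h1, ← h3, h2]
    refine Finset.sum_congr rfl fun j hj => ?_
    rw [Finset.mem_range] at hj
    rw [hes j (by omega)]
  have hex : ∀ i, ∃ l, (p : ℤ) ^ k ∣ x i - y l := by
    intro i
    have hk0 : k ≠ 0 := by
      have := i.pos
      omega
    obtain ⟨l, -, hl⟩ := hpr.exists_mem_finset_dvd ((dvd_pow_self _ hk0).trans (hprod i))
    refine ⟨l, ?_⟩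
    have h1 := hprod i
    rw [← Finset.mul_prod_erase _ _ (Finset.mem_univ l)] at h1
    refine IsCoprime.dvd_of_dvd_mul_right ?_ h1
    apply IsCoprime.pow_left
    apply IsCoprime.prod_right
    intro l' hl'
    rw [hpr.coprime_iff_not_dvd]
    intro h2
    refine hy l' l (Finset.ne_of_mem_erase hl') ?_
    have h3 := dvd_sub hl h2
    have h4 : x i - y l - (x i - y l') = y l' - y l := by ring
    rwa [h4] at h3
  choose σ hσ using hex
  have hinj : Function.Injective σ := by
    intro i i' hii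
    by_contra hne
    have hk0 : k ≠ 0 := by
      have := i.pos
      omega
    apply hx i i' hne
    have h1 := (dvd_pow_self (p : ℤ) hk0).trans (hσ i)
    have h2 := (dvd_pow_self (p : ℤ) hk0).trans (hσ i')
    rw [hii] at h1
    have h3 := dvd_sub h1 h2
    have h4 : x i - y (σ i') - (x i' - y (σ i')) = x i - x i' := by ring
    rwa [h4] at h3
  exact ⟨Equiv.ofBijective σ (Finite.injective_iff_bijective.1 hinj), hσ⟩

end Pool.Agent.VMV
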