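import Pool.Agent.VMV.En
import Pool.Agent.VMV.Aff

/-!
# VMV / Nondeg: the nondegenerate part

`ndtup p k t P` is the set of the `t`-tuples in `[1, P]` which contain `k` entries with pairwise
different residues modulo `p`.

PROOF.  For a subset `I` of `Fin t` with `k` elements let `T I` be the set of the `x ∈ tup t [1, P]` such
that `x ∘ (I.orderEmbOfFin _) ∈ dtup p k P`. By `en_biUnion_le` (the index set
`Finset.powersetCard k univ` has `t.choose k` elements)
`En (ndtup ..) (ps k) ≤ (t choose k) * ∑_I En (T I) (ps k)`, and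
`En (T I) (ps k) = En (dtup p k P ×ˢ tup s [1, P]) (fun q => ps q.1 + ps q.2)` by the bijection
`x ↦ (x restricted to I, x restricted to the complement of I)` (`en_congr`; the complement has
`t - k = s` elements; `ps k x` is the sum of the two restrictions). `≤` is enough
(`en_le_of_injOn`).
-/

set_option autoImplicit false

namespace Pool.Agent.VMV

open Classical in
/-- The tuples with `k` entries with pairwise different residues. -/
noncomputable def ndtup (p k t P : ℕ) : Finset (Fin t → ℤ) :=
  (tup t (Finset.Icc 1 (P : ℤ))).filter fun x => ∃ f : Fin k → Fin t, Dist p (x ∘ f)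

private theorem nd_card {s k : ℕ} {I : Finset (Fin (s + k))} (h : I.card = k) :
    Iᶜ.card = s := by
  rw [Finset.card_compl, h, Fintype.card_fin]
  omega

open Classical in
/-- the splitting of the indices -/
private noncomputable def ndE (s k : ℕ) (I : Finset (Fin (s + k))) :
    Fin k ⊕ Fin s ≃ Fin (s + k) :=
  if h : I.card = k then finSumEquivOfFinset h (nd_card h)
  else (Equiv.sumComm _ _).trans finSumFinEquiv

private theorem ndE_mem {s k : ℕ} {I : Finset (Fin (s + k))} (h : I.card = k) (i : Fin k) :
    ndE s k I (Sum.inl i) ∈ I := by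
  unfold ndE
  rw [dif_pos h, finSumEquivOfFinset_inl]
  exact Finset.orderEmbOfFin_mem _ _ _

private theorem nd_ps {k n m : ℕ} (e : Fin k ⊕ Fin n ≃ Fin m) (x : Fin m → ℤ) (l : ℕ) :
    ps l x = ps l (fun i => x (e (Sum.inl i))) + ps l (fun i => x (e (Sum.inr i))) := by
  funext j
  show ∑ i, x i ^ (j.1 + 1) = ∑ i, x (e (Sum.inl i)) ^ (j.1 + 1) +
    ∑ i, x (e (Sum.inr i)) ^ (j.1 + 1)
  rw [← Equiv.sum_comp e, Fintype.sum_sum_type]

theorem nondeg (p k s P : ℕ) : En (ndtup p k (s + k) P) (ps k) ≤
    ((s + k).choose k) ^ 2 *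
      En (dtup p k P ×ˢ tup s (Finset.Icc 1 (P : ℤ))) (fun q => ps k q.1 + ps k q.2) := by
  classical
  set T : Finset (Fin (s + k)) → Finset (Fin (s + k) → ℤ) := fun I =>
    (tup (s + k) (Finset.Icc 1 (P : ℤ))).filter fun x =>
      Dist p fun i => x (ndE s k I (Sum.inl i)) with hT
  have h1 : ∀ x ∈ ndtup p k (s + k) P, ∃ I ∈ Finset.powersetCard k
      (Finset.univ : Finset (Fin (s + k))), x ∈ T I := by
    intro x hx
    obtain ⟨hx1, f, hf⟩ := Finset.mem_filter.1 hx
    have hinj : Function.Injective f := by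
      intro i j hij
      by_contra hne
      refine hf i j hne ?_
      show (p : ℤ) ∣ x (f i) - x (f j)
      rw [hij, sub_self]
      exact dvd_zero _
    have hc : (Finset.univ.image f).card = k := by
      rw [Finset.card_image_of_injective _ hinj, Finset.card_univ, Fintype.card_fin]
    refine ⟨Finset.univ.image f, Finset.mem_powersetCard.2 ⟨Finset.subset_univ _, hc⟩,
      Finset.mem_filter.2 ⟨hx1, ?_⟩⟩
    intro i j hij
    obtain ⟨i', -, hi'⟩ := Finset.mem_image.1 (ndE_mem hc i)
    obtain ⟨j', -, hj'⟩ := Finset.mem_image.1 (ndE_mem hc j)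
    have hne : i' ≠ j' := by
      rintro rfl
      rw [hi'] at hj'
      exact hij (Sum.inl_injective ((ndE s k (Finset.univ.image f)).injective hj'))
    have := hf i' j' hne
    simp only [Function.comp_apply] at this
    rw [hi', hj'] at this
    exact this
  have h2 : ∀ I ∈ Finset.powersetCard k (Finset.univ : Finset (Fin (s + k))),
      En (T I) (ps k) ≤ En (dtup p k P ×ˢ tup s (Finset.Icc 1 (P : ℤ)))
        (fun q => ps k q.1 + ps k q.2) := by
    intro I _
    refine en_le_of_injOn _ _ _ _ (fun x => (fun i => x (ndE s k I (Sum.inl i)),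
      fun i => x (ndE s k I (Sum.inr i)))) ?_ ?_ ?_
    · intro x hx
      obtain ⟨hx1, hx2⟩ := Finset.mem_filter.1 (Finset.mem_coe.1 hx)
      have hx3 : ∀ i, x i ∈ Finset.Icc 1 (P : ℤ) := Fintype.mem_piFinset.1 hx1
      refine Finset.mem_coe.2 (Finset.mem_product.2 ⟨Finset.mem_filter.2 ⟨?_, hx2⟩, ?_⟩)
      · exact Fintype.mem_piFinset.2 fun i => hx3 _
      · exact Fintype.mem_piFinset.2 fun i => hx3 _
    · intro x _ y _ hxy
      have e1 := congrArg Prod.fst hxy
      have e2 := congrArg Prod.snd hxy
      funext i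
      obtain ⟨a, rfl⟩ := (ndE s k I).surjective i
      rcases a with a | a
      · exact congrFun e1 a
      · exact congrFun e2 a
    · intro x _ y _ hxy
      rw [nd_ps (ndE s k I) x, nd_ps (ndE s k I) y] at hxy
      exact hxy
  refine (en_biUnion_le (Finset.powersetCard k (Finset.univ : Finset (Fin (s + k)))) _ T h1
    (ps k)).trans ?_
  have hcard : (Finset.powersetCard k (Finset.univ : Finset (Fin (s + k)))).card =
      (s + k).choose k := by
    rw [Finset.card_powersetCard, Finset.card_univ, Fintype.card_fin]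
  rw [hcard, sq, mul_assoc]
  refine Nat.mul_le_mul_left _ ?_
  refine (Finset.sum_le_card_nsmul _ _ _ h2).trans (le_of_eq ?_)
  rw [hcard, smul_eq_mul]

end Pool.Agent.VMV
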